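import Mathlib

/-!
Continued fractions of formal Laurent series in `1/t` over a field `K`.
The field `K((1/t))` is `LaurentSeries K`, whose variable `X` plays the role of `1/t`.
-/

namespace Pool.Agent.Lib.MP_3bedcc_nt

open Polynomial

variable {K : Type*} [Field K]

/-- The embedding `K[t] → K((1/t))`, sending `t` to `X⁻¹`. -/
noncomputable def emb (A : K[X]) : LaurentSeries K :=
  Polynomial.aeval (HahnSeries.single (-1 : ℤ) (1 : K) : LaurentSeries K) A

/-- The polynomial part `∑_{i ≥ 0} a_{-i} t^i` of the series `∑ a_j t^{-j}`. -/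
noncomputable def polyPart (x : LaurentSeries K) : K[X] :=
  ∑ i ∈ Finset.range ((-x.order).toNat + 1), Polynomial.monomial i (x.coeff (-(i : ℤ)))

/-- The complete quotients of the continued fraction expansion. -/
noncomputable def compQuot (x : LaurentSeries K) (i : ℕ) : LaurentSeries K :=
  (fun y => (y - emb (polyPart y))⁻¹)^[i] x

/-- The `i`-th quotient `A_i` of the continued fraction expansion `x = [A_0; A_1, A_2, …]`. -/
noncomputable def cfQuot (x : LaurentSeries K) (i : ℕ) : K[X] :=
  polyPart (compQuot x i)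

/-- `x` is a quadratic irrational over `K(t)`. -/
def IsQuadIrr (x : LaurentSeries K) : Prop :=
  (∀ A B : K[X], B ≠ 0 → emb B * x ≠ emb A) ∧
    ∃ a b c : K[X], a ≠ 0 ∧ emb a * x ^ 2 + emb b * x + emb c = 0

/-- `A_N, …, A_{N+l-1}` is one period of the periodic part of the expansion of `x`. -/
def IsPeriod (x : LaurentSeries K) (N l : ℕ) : Prop :=
  1 ≤ N ∧ 1 ≤ l ∧ ∀ i, N ≤ i → cfQuot x (i + l) = cfQuot x i

/-- The escape-of-mass ratio computed on the period `A_N, …, A_{N+l-1}`. -/
noncomputable def escape (x : LaurentSeries K) (N l n : ℕ) : ℝ :=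
  (∑ i ∈ Finset.range l, max (((cfQuot x (N + i)).natDegree : ℝ) - n) 0) /
    ∑ i ∈ Finset.range l, ((cfQuot x (N + i)).natDegree : ℝ)

end Pool.Agent.Lib.MP_3bedcc_nt
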