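import Mathlib
import Pool.Agent.Lib.MP_3bedcc_nt.Defs

namespace Pool.Agent.Lib.MP_3bedcc_nt

open Polynomial WithZero

variable {K : Type*} [Field K]

/-- The `1/t`-adic valuation. -/
noncomputable abbrev vv (K : Type*) [Field K] : Valuation (LaurentSeries K) (WithZero (Multiplicative ℤ)) :=
  Valued.v

noncomputable abbrev tt (K : Type*) [Field K] : LaurentSeries K := HahnSeries.single (-1 : ℤ) (1 : K)

lemma v_tt : vv K (tt K) = exp 1 := by
  simpa using LaurentSeries.valuation_single_zpow K (-1)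

lemma emb_add (A B : K[X]) : emb (A + B) = emb A + emb B := by simp [emb]
lemma emb_sub (A B : K[X]) : emb (A - B) = emb A - emb B := by simp [emb]
lemma emb_neg (A : K[X]) : emb (-A) = -emb A := by simp [emb]
lemma emb_mul (A B : K[X]) : emb (A * B) = emb A * emb B := by simp [emb]
lemma emb_pow (A : K[X]) (n : ℕ) : emb (A ^ n) = emb A ^ n := by simp [emb]
lemma emb_X : emb (X : K[X]) = tt K := by simp [emb]
lemma emb_one : emb (1 : K[X]) = 1 := by simp [emb]
lemma emb_zero : emb (0 : K[X]) = 0 := by simp [emb]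
lemma emb_two : emb (2 : K[X]) = 2 := by
  rw [show (2 : K[X]) = 1 + 1 by norm_num, emb_add, emb_one]; norm_num

lemma compQuot_zero (x : LaurentSeries K) : compQuot x 0 = x := rfl

lemma compQuot_succ (x : LaurentSeries K) (i : ℕ) :
    compQuot x (i + 1) = (compQuot x i - emb (polyPart (compQuot x i)))⁻¹ :=
  Function.iterate_succ_apply' _ _ _

lemma lt_one_iff_le (x : WithZero (Multiplicative ℤ)) : x < 1 ↔ x ≤ exp (-1) := by
  rw [← lt_mul_exp_iff_le exp_ne_zero, ← exp_add]
  simp

lemma one_lt_exp_one : (1 : WithZero (Multiplicative ℤ)) < exp 1 := by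
  rw [← exp_zero, exp_lt_exp]; norm_num

lemma exp_pow (a : ℤ) (n : ℕ) : (exp a : WithZero (Multiplicative ℤ)) ^ n = exp (n * a) := by
  rw [← exp_nsmul, nsmul_eq_mul]

lemma emb_monomial (i : ℕ) (c : K) :
    emb (monomial i c) = (HahnSeries.single (-(i : ℤ)) c : LaurentSeries K) := by
  unfold emb
  rw [aeval_monomial, HahnSeries.single_pow, LaurentSeries.algebraMap_apply, HahnSeries.C_apply,
    HahnSeries.single_mul_single]
  simp

lemma v_sub_polyPart (x : LaurentSeries K) : vv K (x - emb (polyPart x)) < 1 := by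
  rw [lt_one_iff_le, LaurentSeries.valuation_le_iff_coeff_lt_eq_zero]
  intro n hn
  have h1 : emb (polyPart x) = ∑ i ∈ Finset.range ((-x.order).toNat + 1),
      (HahnSeries.single (-(i : ℤ)) (x.coeff (-(i : ℤ))) : LaurentSeries K) := by
    unfold polyPart
    rw [show ∀ A : K[X], emb A = aeval (tt K) A from fun _ => rfl, map_sum]
    exact Finset.sum_congr rfl fun i _ => emb_monomial i _
  rw [HahnSeries.coeff_sub, h1, HahnSeries.coeff_sum, sub_eq_zero]
  obtain ⟨m, rfl⟩ : ∃ m : ℕ, n = -(m : ℤ) := ⟨(-n).toNat, by omega⟩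
  rw [Finset.sum_eq_single m]
  · simp
  · intro b _ hb
    rw [HahnSeries.coeff_single_of_ne]
    omega
  · intro hm
    rw [HahnSeries.coeff_single_same]
    apply HahnSeries.coeff_eq_zero_of_lt_order
    rw [Finset.mem_range] at hm
    omega

section finite
variable [Fintype K]

lemma v_aeval_gt (z : LaurentSeries K) (hz : vv K z = exp 1) {F : K[X]} (hF : F ≠ 0) :
    vv K (aeval z F) = exp (F.natDegree : ℤ) := by
  rw [valuation_aeval_eq_valuation_X_pow_natDegree_of_one_lt_valuation_X z
    (hz ▸ one_lt_exp_one) hF, hz, exp_pow, mul_one]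

lemma v_emb {F : K[X]} (hF : F ≠ 0) : vv K (emb F) = exp (F.natDegree : ℤ) :=
  v_aeval_gt _ v_tt hF

lemma v_emb_le (F : K[X]) : vv K (emb F) ≤ exp (F.natDegree : ℤ) := by
  by_cases hF : F = 0
  · simp [hF, emb_zero]
  · exact (v_emb hF).le

lemma natDegree_le_of_v_aeval (z : LaurentSeries K) (hz : vv K z = exp 1) (F : K[X]) (n : ℕ)
    (h : vv K (aeval z F) ≤ exp (n : ℤ)) : F.natDegree ≤ n := by
  by_cases hF : F = 0
  · simp [hF]
  · rw [v_aeval_gt z hz hF, exp_le_exp] at h
    exact_mod_cast h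

lemma natDegree_le_of_v_emb (F : K[X]) (n : ℕ) (h : vv K (emb F) ≤ exp (n : ℤ)) :
    F.natDegree ≤ n := natDegree_le_of_v_aeval _ v_tt F n h

lemma emb_ne_zero {F : K[X]} (hF : F ≠ 0) : emb F ≠ 0 := by
  intro h
  have := v_emb hF
  rw [h, map_zero] at this
  exact exp_ne_zero this.symm

lemma v_aeval_le_one (z : LaurentSeries K) (hz : vv K z ≤ 1) (F : K[X]) :
    vv K (aeval z F) ≤ 1 := by
  induction F using Polynomial.induction_on' with
  | add p q hp hq => rw [map_add]; exact Valuation.map_add_le _ hp hq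
  | monomial n a =>
    by_cases ha : a = 0
    · simp [ha]
    · rw [valuation_aeval_monomial_eq_valuation_pow z n ha]
      exact pow_le_one₀ zero_le hz

lemma X_pow_dvd_of_v_aeval (z : LaurentSeries K) (hz : vv K z = exp (-1)) (m : ℕ) :
    ∀ F : K[X], vv K (aeval z F) ≤ exp (-(m : ℤ)) → X ^ m ∣ F := by
  have hz1 : vv K z < 1 := by rw [lt_one_iff_le, hz]
  induction m with
  | zero => intro F _; simp
  | succ m ih =>
    intro F hF
    have hsplit : F = X * F.divX + C (F.coeff 0) := (X_mul_divX_add F).symm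
    have h0 : F.coeff 0 = 0 := by
      by_contra hne
      have h1 : vv K (aeval z (C (F.coeff 0))) = 1 := by
        rw [aeval_C]; exact Valuation.IsTrivialOn.eq_one _ hne
      have h2 : vv K (aeval z (X * F.divX)) < 1 := by
        rw [map_mul, map_mul, aeval_X]
        exact mul_lt_one_of_lt_of_le hz1 (v_aeval_le_one z hz1.le _)
      have h3 : vv K (aeval z F) = 1 := by
        rw [hsplit, map_add, Valuation.map_add_eq_of_lt_right _ (h1 ▸ h2), h1]
      rw [h3, ← exp_zero, exp_le_exp] at hF
      omega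
    rw [h0, C_0, add_zero] at hsplit
    rw [hsplit, pow_succ']
    apply mul_dvd_mul_left
    apply ih
    rw [hsplit, map_mul, map_mul, aeval_X, hz] at hF
    have : (exp (-((m + 1 : ℕ) : ℤ)) : WithZero (Multiplicative ℤ)) = exp (-1) * exp (-(m : ℤ)) := by
      rw [← exp_add]; congr 1; push_cast; ring
    rw [this] at hF
    exact le_of_mul_le_mul_left hF exp_pos

/-- Irrationality over `K(t)`. -/
def Irr (x : LaurentSeries K) : Prop := ∀ A B : K[X], B ≠ 0 → emb B * x ≠ emb A

omit [Fintype K] in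
lemma Irr.sub_ne {x : LaurentSeries K} (hx : Irr x) (A : K[X]) : x - emb A ≠ 0 := by
  intro h
  apply hx A 1 one_ne_zero
  rw [emb_one, one_mul]
  exact sub_eq_zero.mp h

lemma Irr.compQuot {x : LaurentSeries K} (hx : Irr x) (i : ℕ) : Irr (compQuot x i) := by
  induction i with
  | zero => exact hx
  | succ i ih =>
    intro A B hB h
    have hne := ih.sub_ne (polyPart (MP_3bedcc_nt.compQuot x i))
    rw [compQuot_succ] at h
    have h2 : emb B = emb A * (MP_3bedcc_nt.compQuot x i - emb (polyPart (MP_3bedcc_nt.compQuot x i))) := by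
      rw [← h, mul_assoc, inv_mul_cancel₀ hne, mul_one]
    have hA : A ≠ 0 := by
      rintro rfl
      rw [emb_zero, zero_mul] at h2
      exact emb_ne_zero hB h2
    apply ih (B + A * polyPart (MP_3bedcc_nt.compQuot x i)) A hA
    rw [emb_add, emb_mul, h2]
    ring

lemma compQuot_succ_mul {x : LaurentSeries K} (hx : Irr x) (i : ℕ) :
    (compQuot x i - emb (cfQuot x i)) * compQuot x (i + 1) = 1 := by
  rw [compQuot_succ]
  exact mul_inv_cancel₀ ((hx.compQuot i).sub_ne _)

lemma one_lt_v_compQuot {x : LaurentSeries K} (hx : Irr x) (i : ℕ) :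
    1 < vv K (compQuot x (i + 1)) := by
  rw [compQuot_succ, map_inv₀]
  apply (one_lt_inv₀ _).mpr (v_sub_polyPart _)
  rw [zero_lt_iff, Valuation.ne_zero_iff]
  exact (hx.compQuot i).sub_ne _

lemma v_emb_cfQuot {x : LaurentSeries K} (hx : Irr x) (i : ℕ) :
    vv K (emb (cfQuot x (i + 1))) = vv K (compQuot x (i + 1)) := by
  have h : emb (cfQuot x (i + 1)) = compQuot x (i + 1) - (compQuot x (i + 1) - emb (cfQuot x (i + 1))) := by
    ring
  rw [h]
  exact Valuation.map_sub_eq_of_lt_left _ ((v_sub_polyPart _).trans (one_lt_v_compQuot hx i))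

lemma cfQuot_ne_zero {x : LaurentSeries K} (hx : Irr x) (i : ℕ) : cfQuot x (i + 1) ≠ 0 := by
  intro h
  have h1 := v_emb_cfQuot hx i
  have h2 := one_lt_v_compQuot hx i
  rw [← h1, h, emb_zero, map_zero] at h2
  exact not_lt_of_ge zero_le_one h2

lemma v_compQuot {x : LaurentSeries K} (hx : Irr x) (i : ℕ) :
    vv K (compQuot x (i + 1)) = exp ((cfQuot x (i + 1)).natDegree : ℤ) := by
  rw [← v_emb_cfQuot hx, v_emb (cfQuot_ne_zero hx i)]

lemma one_le_natDegree_cfQuot {x : LaurentSeries K} (hx : Irr x) (i : ℕ) :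
    1 ≤ (cfQuot x (i + 1)).natDegree := by
  have h := one_lt_v_compQuot hx i
  rw [v_compQuot hx, ← exp_zero, exp_lt_exp] at h
  omega

/-- The degree of the denominator of the `i`-th convergent. -/
noncomputable def degSum (x : LaurentSeries K) (i : ℕ) : ℕ :=
  ∑ j ∈ Finset.range i, (cfQuot x (j + 1)).natDegree

omit [Fintype K] in
lemma degSum_succ (x : LaurentSeries K) (i : ℕ) :
    degSum x (i + 1) = degSum x i + (cfQuot x (i + 1)).natDegree := Finset.sum_range_succ _ _

lemma degSum_strictMono {x : LaurentSeries K} (hx : Irr x) : StrictMono (degSum x) := by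
  apply strictMono_nat_of_lt_succ
  intro i
  have := one_le_natDegree_cfQuot hx i
  rw [degSum_succ]; omega

lemma exists_convergent {x : LaurentSeries K} (hx : Irr x) (i : ℕ) :
    ∃ S R S' R' : K[X], vv K (emb S) ≤ exp (degSum x i : ℤ) ∧ vv K (emb S') ≤ exp (degSum x i : ℤ) ∧
      (emb S * x - emb R) * compQuot x (i + 1) = -(emb S' * x - emb R') ∧
      vv K (emb S' * x - emb R') = exp (-(degSum x i : ℤ)) := by
  induction i with
  | zero =>
    refine ⟨1, cfQuot x 0, 0, 1, by simp [emb_one, degSum], by simp [emb_zero], ?_, ?_⟩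
    · have := compQuot_succ_mul hx 0
      rw [emb_one, emb_zero, one_mul, zero_mul]
      rw [show compQuot x 0 = x from rfl] at this
      rw [this]; ring
    · simp [emb_one, emb_zero, degSum]
  | succ i ih =>
    obtain ⟨S, R, S', R', h1, h2, h3, h4⟩ := ih
    have hle : (exp (degSum x i : ℤ) : WithZero (Multiplicative ℤ)) ≤ exp (degSum x (i + 1) : ℤ) := by
      rw [exp_le_exp, degSum_succ]; omega
    refine ⟨cfQuot x (i + 1) * S + S', cfQuot x (i + 1) * R + R', S, R, ?_, h1.trans hle, ?_, ?_⟩
    · rw [emb_add, emb_mul]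
      apply Valuation.map_add_le _ _ (h2.trans hle)
      rw [map_mul, degSum_succ, Nat.cast_add, exp_add, mul_comm]
      exact mul_le_mul' h1 (v_emb_le _)
    · have h5 := compQuot_succ_mul hx (i + 1)
      rw [emb_add, emb_add, emb_mul, emb_mul]
      linear_combination (compQuot x (i + 1 + 1)) * h3 - (emb S * x - emb R) * h5
    · have h5 := congrArg (vv K) h3
      rw [map_mul, Valuation.map_neg, h4, v_compQuot hx] at h5
      rw [degSum_succ, Nat.cast_add, neg_add, exp_add, ← h5, mul_assoc, ← exp_add]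
      simp

/-- If no good approximation exists at level `d`, then `d` is a denominator degree. -/
lemma exists_degSum_eq {x : LaurentSeries K} (hx : Irr x) (d : ℕ)
    (hd : ∀ S R : K[X], vv K (emb S) ≤ exp ((d : ℤ) - 1) → emb S * x - emb R ≠ 0 →
      ¬ vv K (emb S * x - emb R) ≤ exp (-(d : ℤ) - 1)) : ∃ i, degSum x i = d := by
  by_contra hne
  push Not at hne
  have hex : ∃ i, d < degSum x (i + 1) := ⟨d, by
    have := (degSum_strictMono hx).id_le (d + 1)
    simp only [id] at this; omega⟩
  classical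
  set i := Nat.find hex with hi
  have h1 : d < degSum x (i + 1) := Nat.find_spec hex
  have h2 : degSum x i < d := by
    rcases Nat.eq_zero_or_pos i with h0 | h0
    · have := hne 0
      rw [h0]
      simp only [degSum, Finset.range_zero, Finset.sum_empty] at this ⊢
      omega
    · have h3 := Nat.find_min hex (m := i - 1) (by omega)
      rw [show i - 1 + 1 = i by omega] at h3
      have := hne i
      omega
  obtain ⟨S, R, S', R', a1, -, a3, a4⟩ := exists_convergent hx i
  have h5 := congrArg (vv K) a3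
  rw [map_mul, Valuation.map_neg, a4, v_compQuot hx] at h5
  have h6 : vv K (emb S * x - emb R) = exp (-(degSum x (i + 1) : ℤ)) := by
    rw [degSum_succ, Nat.cast_add, neg_add, exp_add, ← h5, mul_assoc, ← exp_add]
    simp
  refine hd S R (a1.trans ?_) ?_ ?_
  · rw [exp_le_exp]; omega
  · intro h0
    rw [h0, map_zero] at h6
    exact exp_ne_zero h6.symm
  · rw [h6, exp_le_exp]; omega

end finite

end Pool.Agent.Lib.MP_3bedcc_nt
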