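import Mathlib
import Pool.Agent.Lib.MP_3bedcc_nt.CF

set_option linter.unusedSectionVars false

namespace Pool.Agent.Lib.MP_3bedcc_nt

open Polynomial WithZero

variable {K : Type*} [Field K] [Fintype K]

/-- The sequence of conjugates of the complete quotients. -/
noncomputable def conjQuot (x y : LaurentSeries K) : ℕ → LaurentSeries K
  | 0 => y
  | i + 1 => (conjQuot x y i - emb (cfQuot x i))⁻¹

lemma conj_step {x y : LaurentSeries K} (i : ℕ)
    (h : 1 < vv K (compQuot x i - conjQuot x y i)) :
    1 < vv K (conjQuot x y i - emb (cfQuot x i)) := by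
  have e : conjQuot x y i - emb (cfQuot x i)
      = (compQuot x i - emb (cfQuot x i)) - (compQuot x i - conjQuot x y i) := by ring
  have h0 : vv K (compQuot x i - emb (cfQuot x i)) < 1 := v_sub_polyPart _
  rw [e, Valuation.map_sub_eq_of_lt_right _ (h0.trans h)]
  exact h

lemma conj_small {x y : LaurentSeries K} (i : ℕ)
    (h : 1 < vv K (compQuot x i - conjQuot x y i)) : vv K (conjQuot x y (i + 1)) < 1 := by
  rw [conjQuot, map_inv₀]
  exact inv_lt_one_of_one_lt₀ (conj_step i h)

lemma conj_far {x y : LaurentSeries K} (hx : Irr x) (h : 1 < vv K (x - y)) (i : ℕ) :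
    1 < vv K (compQuot x i - conjQuot x y i) := by
  induction i with
  | zero => exact h
  | succ i ih =>
    have h1 := one_lt_v_compQuot hx i
    rw [Valuation.map_sub_eq_of_lt_left _ ((conj_small i ih).trans h1)]
    exact h1

lemma conj_inv {x y : LaurentSeries K} (hx : Irr x) (h : 1 < vv K (x - y)) (b c : K[X])
    (hb : x + y = emb b) (hc : x * y = emb c) (i : ℕ) :
    ∃ a b c : K[X], a ≠ 0 ∧ vv K (emb a * (compQuot x i - conjQuot x y i)) = vv K (x - y) ∧
      emb a * (compQuot x i + conjQuot x y i) = emb b ∧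
      emb a * (compQuot x i * conjQuot x y i) = emb c := by
  induction i with
  | zero =>
    refine ⟨1, b, c, one_ne_zero, ?_, ?_, ?_⟩ <;> simp [emb_one, compQuot_zero, conjQuot, hb, hc]
  | succ i ih =>
    obtain ⟨a, b, c, ha, h1, h2, h3⟩ := ih
    set A := cfQuot x i with hA
    have e1 := compQuot_succ_mul hx i
    have hne : conjQuot x y i - emb A ≠ 0 := by
      intro h0
      have := conj_step i (conj_far hx h i)
      rw [← hA, h0, map_zero] at this
      exact not_lt_of_ge zero_le_one this
    have e2 : (conjQuot x y i - emb A) * conjQuot x y (i + 1) = 1 := by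
      rw [conjQuot]; exact mul_inv_cancel₀ hne
    rw [← hA] at e1
    have e3 : emb (c - A * b + A ^ 2 * a)
        = emb a * ((compQuot x i - emb A) * (conjQuot x y i - emb A)) := by
      rw [emb_add, emb_sub, emb_mul, emb_mul, emb_pow, ← h2, ← h3]; ring
    refine ⟨c - A * b + A ^ 2 * a, b - 2 * A * a, a, ?_, ?_, ?_, ?_⟩
    · intro h0
      rw [h0, emb_zero] at e3
      exact mul_ne_zero (emb_ne_zero ha) (mul_ne_zero ((hx.compQuot i).sub_ne A) hne) e3.symm
    · rw [← h1, ← Valuation.map_neg, e3]
      congr 1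
      linear_combination (-emb a * (conjQuot x y i - emb A)) * e1
        + (emb a * (compQuot x i - emb A)) * e2
    · rw [e3, emb_sub, emb_mul, emb_mul, emb_two, ← h2]
      linear_combination (emb a * (conjQuot x y i - emb A)) * e1
        + (emb a * (compQuot x i - emb A)) * e2
    · rw [e3]
      linear_combination (emb a * (conjQuot x y i - emb A) * conjQuot x y (i + 1)) * e1
        + emb a * e2

lemma finite_natDegree_le (n : ℕ) : {F : K[X] | F.natDegree ≤ n}.Finite := by
  have h : Finite (degreeLT K (n + 1)) := Finite.of_equiv _ (degreeLTEquiv K (n + 1)).toEquiv.symm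
  have h2 : ((degreeLT K (n + 1) : Submodule K K[X]) : Set K[X]).Finite := Set.toFinite _
  apply h2.subset
  intro F hF
  simp only [Set.mem_ofPred_eq] at hF
  simp only [SetLike.mem_coe, mem_degreeLT]
  exact (degree_le_natDegree).trans_lt (by exact_mod_cast Nat.lt_succ_of_le hF)

lemma finite_roots (n : ℕ) : {z : LaurentSeries K | ∃ a b c : K[X], a.natDegree ≤ n ∧
    b.natDegree ≤ n ∧ c.natDegree ≤ n ∧ a ≠ 0 ∧ emb a * z ^ 2 - emb b * z + emb c = 0}.Finite := by
  have hf := finite_natDegree_le (K := K) n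
  have h := (hf.biUnion fun a _ => hf.biUnion fun b _ => hf.biUnion fun c _ =>
    (C (emb a) * X ^ 2 + C (-emb b) * X + C (emb c) : (LaurentSeries K)[X]).rootSet_finite
      (LaurentSeries K))
  apply h.subset
  rintro z ⟨a, b, c, h1, h2, h3, h4, h5⟩
  simp only [Set.mem_iUnion]
  refine ⟨a, h1, b, h2, c, h3, ?_⟩
  rw [mem_rootSet]
  constructor
  · intro h0
    have := degree_quadratic (b := -emb b) (c := emb c) (emb_ne_zero h4)
    rw [h0] at this
    simp at this
  · simp only [map_add, map_mul, aeval_C, Algebra.algebraMap_self, RingHom.id_apply, map_pow,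
      aeval_X]
    linear_combination h5

theorem exists_isPeriod {x y : LaurentSeries K} (hx : Irr x) (h : 1 < vv K (x - y)) (b c : K[X])
    (hb : x + y = emb b) (hc : x * y = emb c) : ∃ N l, IsPeriod x N l := by
  have hxy : vv K (x - y) ≠ 0 := (zero_lt_one.trans h).ne'
  obtain ⟨n, hn⟩ : ∃ n : ℕ, vv K (x - y) ≤ exp (n : ℤ) :=
    ⟨(log (vv K (x - y))).toNat, le_exp_of_log_le (Int.self_le_toNat _)⟩
  have hmem : ∀ i : ℕ, compQuot x (i + 1) ∈ {z : LaurentSeries K | ∃ a b c : K[X], a.natDegree ≤ n ∧
      b.natDegree ≤ n ∧ c.natDegree ≤ n ∧ a ≠ 0 ∧ emb a * z ^ 2 - emb b * z + emb c = 0} := by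
    intro i
    obtain ⟨a, b, c, ha, h1, h2, h3⟩ := conj_inv hx h b c hb hc (i + 1)
    have g1 := one_lt_v_compQuot hx i
    have g2 := conj_small i (conj_far hx h i)
    rw [map_mul, Valuation.map_sub_eq_of_lt_left _ (g2.trans g1)] at h1
    refine ⟨a, b, c, ?_, ?_, ?_, ha, ?_⟩
    · apply natDegree_le_of_v_emb
      exact (le_mul_of_one_le_right' g1.le).trans (h1.le.trans hn)
    · apply natDegree_le_of_v_emb
      rw [← h2, map_mul, Valuation.map_add_eq_of_lt_left _ (g2.trans g1), h1]
      exact hn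
    · apply natDegree_le_of_v_emb
      rw [← h3, map_mul, map_mul, ← mul_assoc, h1]
      exact (mul_le_of_le_one_right' g2.le).trans hn
    · rw [← h2, ← h3]; ring
  obtain ⟨i, -, j, -, hij, heq⟩ := Set.infinite_univ.exists_lt_map_eq_of_mapsTo
    (f := fun i : ℕ => compQuot x (i + 1)) (fun i _ => hmem i) (finite_roots n)
  have hall : ∀ m, compQuot x (i + 1 + m) = compQuot x (j + 1 + m) := by
    intro m
    induction m with
    | zero => exact heq
    | succ m ih => rw [← add_assoc, ← add_assoc, compQuot_succ, compQuot_succ (i := j + 1 + m), ih]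
  refine ⟨i + 1, j - i, by omega, by omega, fun m hm => ?_⟩
  obtain ⟨u, rfl⟩ := Nat.exists_eq_add_of_le hm
  unfold cfQuot
  rw [hall u, show i + 1 + u + (j - i) = j + 1 + u by omega]

end Pool.Agent.Lib.MP_3bedcc_nt
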