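import Mathlib

namespace Pool.Agent.Lib.MP_3bedcc_nt

open Polynomial

variable {K : Type*} [Field K]

/-- `M = (X - 1)(X + 2)`. -/
noncomputable def MM (K : Type*) [Field K] : K[X] := (X - 1) * (X + 2)

lemma coprime_l1_l2 (h3 : (3 : K) ≠ 0) : IsCoprime (X - 1 : K[X]) (X + 2) := by
  refine ⟨-C (3⁻¹ : K), C (3⁻¹ : K), ?_⟩
  have : (C (3⁻¹ : K) : K[X]) * 3 = 1 := by
    rw [show (3 : K[X]) = C 3 from rfl, ← C_mul, inv_mul_cancel₀ h3, C_1]
  linear_combination this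

lemma coprime_l1_B : IsCoprime (X - 1 : K[X]) (2 - 3 * X) :=
  ⟨-3, -1, by ring⟩

lemma coprime_MM_X (h2 : (2 : K) ≠ 0) : IsCoprime (MM K) X := by
  refine ⟨-C (2⁻¹ : K), C (2⁻¹ : K) * (X + 1), ?_⟩
  have : (C (2⁻¹ : K) : K[X]) * 2 = 1 := by
    rw [show (2 : K[X]) = C 2 from rfl, ← C_mul, inv_mul_cancel₀ h2, C_1]
  unfold MM
  linear_combination this

lemma monic_l1 : (X - 1 : K[X]).Monic := by
  simpa using monic_X_sub_C (1 : K)

lemma monic_l2 : (X + 2 : K[X]).Monic := by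
  exact monic_X_add_C (2 : K)

lemma natDegree_l1 : (X - 1 : K[X]).natDegree = 1 := by
  simpa using natDegree_X_sub_C (1 : K)

lemma natDegree_l2 : (X + 2 : K[X]).natDegree = 1 := by
  exact natDegree_X_add_C (2 : K)

lemma natDegree_B (h3 : (3 : K) ≠ 0) : (2 - 3 * X : K[X]).natDegree = 1 := by
  have : (2 - 3 * X : K[X]) = C (-3) * X + C 2 := by
    simp only [map_neg]
    rw [show (C (3 : K) : K[X]) = 3 from rfl, show (C (2 : K) : K[X]) = 2 from rfl]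
    ring
  rw [this]
  exact natDegree_linear (neg_ne_zero.mpr h3)

lemma frob_id (p r : ℕ) [Fact p.Prime] [CharP K p] :
    (X - 1 : K[X]) ^ (2 * p ^ r) * (X + 2) ^ (p ^ r) = X ^ (3 * p ^ r) + (2 - 3 * X) ^ (p ^ r) := by
  have h : (X - 1 : K[X]) ^ 2 * (X + 2) = X ^ 3 + (2 - 3 * X) := by ring
  rw [pow_mul, ← mul_pow, h, add_pow_char_pow, ← pow_mul]

theorem syzygy0 (p r : ℕ) [Fact p.Prime] [CharP K p] (h3 : (3 : K) ≠ 0) (k s : ℕ)
    (hk1 : p ^ r ≤ k) (hk2 : k ≤ 2 * p ^ r) (hs1 : 2 * p ^ r ≤ s) (hs2 : s ≤ 3 * p ^ r)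
    (g h : K[X]) (hg : g.natDegree < k) (hh : h.natDegree < k)
    (hd : MM K ^ k ∣ g - X ^ s * h) : g = 0 := by
  set Q := p ^ r with hQ
  obtain ⟨a, rfl⟩ : ∃ a, k = Q + a := ⟨k - Q, by omega⟩
  obtain ⟨b, hb⟩ : ∃ b, 2 * Q = Q + a + b := ⟨2 * Q - (Q + a), by omega⟩
  obtain ⟨c, hc⟩ : ∃ c, 3 * Q = s + c := ⟨3 * Q - s, by omega⟩
  have hid := frob_id (K := K) p r
  rw [← hQ] at hid
  set l1 : K[X] := X - 1 with hl1
  set l2 : K[X] := X + 2 with hl2
  set B : K[X] := (2 - 3 * X) ^ Q with hB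
  have hM : MM K = l1 * l2 := rfl
  have l1ne : l1 ≠ 0 := monic_l1.ne_zero
  have l2ne : l2 ≠ 0 := monic_l2.ne_zero
  have dl1 : l1.natDegree = 1 := natDegree_l1
  have dl2 : l2.natDegree = 1 := natDegree_l2
  have dB : B.natDegree = Q := by rw [hB, natDegree_pow, natDegree_B h3, mul_one]
  have B0 : (2 - 3 * X : K[X]) ≠ 0 := by
    intro h0
    have := natDegree_B h3
    rw [h0] at this
    simp at this
  have Bne : B ≠ 0 := pow_ne_zero _ B0
  obtain ⟨w, hw⟩ := hd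
  rw [hM] at hw
  rw [hb, hc] at hid
  -- the cross product
  have hcross : (l1 * l2) ^ (Q + a) ∣ (g * X ^ c + h * B) * l2 ^ a := by
    refine ⟨w * X ^ c * l2 ^ a + h * l1 ^ b, ?_⟩
    have e1 : g = X ^ s * h + (l1 * l2) ^ (Q + a) * w := by linear_combination hw
    have e2 : B = l1 ^ (Q + a + b) * l2 ^ Q - X ^ (s + c) := by linear_combination -hid
    rw [e1, e2, mul_pow]
    ring
  have hzero : (g * X ^ c + h * B) * l2 ^ a = 0 := by
    by_contra hne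
    have h1 := natDegree_le_of_dvd hcross hne
    rw [natDegree_pow, natDegree_mul l1ne l2ne, dl1, dl2] at h1
    have h2 : ((g * X ^ c + h * B) * l2 ^ a).natDegree ≤ (Q + a - 1 + Q) + a := by
      refine natDegree_mul_le.trans (add_le_add ?_ ?_)
      · refine (natDegree_add_le _ _).trans (max_le ?_ ?_)
        · refine natDegree_mul_le.trans ?_
          rw [natDegree_X_pow]
          omega
        · refine natDegree_mul_le.trans ?_
          rw [dB]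
          omega
      · rw [natDegree_pow, dl2, mul_one]
    omega
  have hz2 : g * X ^ c + h * B = 0 :=
    (mul_eq_zero.mp hzero).resolve_right (pow_ne_zero _ l2ne)
  have key : (l1 ^ (Q + a) * l2 ^ Q) * (g * l1 ^ b) = (l1 ^ (Q + a) * l2 ^ Q) * (l2 ^ a * B * w) := by
    have e3 : g * (l1 ^ (Q + a + b) * l2 ^ Q) = (l1 * l2) ^ (Q + a) * w * B := by
      rw [hid, ← hw]
      linear_combination (X ^ s) * hz2
    rw [mul_pow] at e3
    linear_combination e3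
  have key2 : g * l1 ^ b = l2 ^ a * B * w :=
    mul_left_cancel₀ (mul_ne_zero (pow_ne_zero _ l1ne) (pow_ne_zero _ l2ne)) key
  have hcop : IsCoprime (l2 ^ a * B) (l1 ^ b) := by
    apply IsCoprime.pow_right
    apply IsCoprime.mul_left
    · exact IsCoprime.pow_left (coprime_l1_l2 h3).symm
    · exact IsCoprime.pow_left coprime_l1_B.symm
  have hdv : l2 ^ a * B ∣ g := hcop.dvd_of_dvd_mul_right ⟨w, key2⟩
  by_contra hne
  have h1 := natDegree_le_of_dvd hdv hne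
  rw [natDegree_mul (pow_ne_zero _ l2ne) Bne, natDegree_pow, dl2, dB] at h1
  omega

theorem MM_pow_dvd [Fintype K] (p r : ℕ) [Fact p.Prime] [CharP K p] (h2 : (2 : K) ≠ 0)
    (h3 : (3 : K) ≠ 0) :
    MM K ^ (p ^ (r + 1)) ∣ X ^ ((Fintype.card K - 1) * p ^ (r + 1)) - 1 := by
  have h : MM K ∣ X ^ (Fintype.card K - 1) - 1 := by
    apply IsCoprime.mul_dvd (coprime_l1_l2 h3)
    · exact sub_one_dvd_pow_sub_one _ _
    · have : (X + 2 : K[X]) = X - C (-2) := by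
        rw [map_neg, show (C (2 : K) : K[X]) = 2 from rfl]; ring
      rw [this, dvd_iff_isRoot]
      simp [FiniteField.pow_card_sub_one_eq_one (-2 : K) (neg_ne_zero.mpr h2)]
  have := pow_dvd_pow_of_dvd h (p ^ (r + 1))
  rwa [sub_pow_char_pow, ← pow_mul, one_pow] at this

theorem syzygy1 [Fintype K] (p r : ℕ) [Fact p.Prime] [CharP K p] (h2 : (2 : K) ≠ 0)
    (h3 : (3 : K) ≠ 0) (k s : ℕ)
    (hk1 : p ^ r ≤ k) (hk2 : k ≤ 2 * p ^ r)
    (hs1 : 2 * p ^ r ≤ s % ((Fintype.card K - 1) * p ^ (r + 1)))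
    (hs2 : s % ((Fintype.card K - 1) * p ^ (r + 1)) ≤ 3 * p ^ r)
    (g h : K[X]) (hg : g.natDegree < k) (hh : h.natDegree < k)
    (hd : MM K ^ k ∣ g - X ^ s * h) : g = 0 := by
  set N := (Fintype.card K - 1) * p ^ (r + 1) with hN
  refine syzygy0 p r h3 k (s % N) hk1 hk2 hs1 hs2 g h hg hh ?_
  have hp2 : 2 ≤ p := (Fact.out : p.Prime).two_le
  have hk3 : k ≤ p ^ (r + 1) := by
    rw [pow_succ]; nlinarith [Nat.zero_le (p ^ r)]
  have h1 : MM K ^ k ∣ (X ^ N) ^ (s / N) - 1 :=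
    ((pow_dvd_pow _ hk3).trans (MM_pow_dvd p r h2 h3)).trans (sub_one_dvd_pow_sub_one _ _)
  have h4 : g - X ^ (s % N) * h
      = (g - X ^ s * h) + ((X ^ N) ^ (s / N) - 1) * (X ^ (s % N) * h) := by
    have : (X : K[X]) ^ s = (X ^ N) ^ (s / N) * X ^ (s % N) := by
      rw [← pow_mul, ← pow_add, Nat.div_add_mod]
    rw [this]; ring
  rw [h4]
  exact dvd_add hd (h1.mul_right _)

end Pool.Agent.Lib.MP_3bedcc_nt
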