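import Mathlib
import Pool.Agent.Lib.MP_3bedcc_nt.Lagrange
import Pool.Agent.Lib.MP_3bedcc_nt.Syzygy

set_option linter.unusedSectionVars false

namespace Pool.Agent.Lib.MP_3bedcc_nt

open Polynomial WithZero

variable {K : Type*} [Field K]

lemma aeval_MM (z : LaurentSeries K) : aeval z (MM K) = z ^ 2 + z - 2 := by
  unfold MM
  rw [map_mul, map_sub, map_add, aeval_X, map_one, map_ofNat]
  ring

/-- A root of `z ^ 2 - (t - 1) z - 2` of degree one. -/
lemma exists_xi : ∃ ξ : LaurentSeries K, vv K ξ = exp 1 ∧ ξ ^ 2 + ξ - 2 = tt K * ξ := by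
  set f : (PowerSeries K)[X] :=
    X ^ 2 + (C (PowerSeries.X - 1) * X + C (-2 * PowerSeries.X ^ 2)) with hf
  have hmon : f.Monic := by
    apply monic_X_pow_add
    exact (degree_linear_le).trans_lt (by norm_num)
  obtain ⟨u, hu, hu1⟩ := HenselianRing.is_henselian
    (I := (Ideal.span {PowerSeries.X} : Ideal (PowerSeries K))) f hmon 1
    (by
      rw [Ideal.mem_span_singleton]
      refine ⟨1 - 2 * PowerSeries.X, ?_⟩
      simp [hf]; ring)
    (by
      have : eval 1 (derivative f) = 1 + PowerSeries.X := by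
        rw [hf, derivative_add, derivative_add, derivative_C, derivative_C_mul_X, derivative_X_pow]
        simp; ring
      rw [this, map_add, map_one, Ideal.Quotient.eq_zero_iff_mem.mpr (Ideal.mem_span_singleton_self _),
        add_zero]
      exact isUnit_one)
  rw [Ideal.mem_span_singleton] at hu1
  obtain ⟨w, hw⟩ := hu1
  have hroot : u ^ 2 + ((PowerSeries.X - 1) * u + -2 * PowerSeries.X ^ 2) = 0 := by
    simpa [hf] using hu
  set U : LaurentSeries K := (u : LaurentSeries K) with hU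
  set Y : LaurentSeries K := HahnSeries.single (1 : ℤ) (1 : K) with hY
  have hTY : tt K * Y = 1 := by
    rw [hY, HahnSeries.single_mul_single]; simp
  have hroot2 : U ^ 2 + ((Y - 1) * U + -2 * Y ^ 2) = 0 := by
    have := congrArg (HahnSeries.ofPowerSeries ℤ K) hroot
    simp only [map_add, map_mul, map_sub, map_pow, map_neg, map_ofNat, map_one, map_zero,
      HahnSeries.ofPowerSeries_X] at this
    exact this
  have hw2 : U = 1 + Y * (w : LaurentSeries K) := by
    have := congrArg (HahnSeries.ofPowerSeries ℤ K) hw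
    simp only [map_sub, map_one, map_mul, HahnSeries.ofPowerSeries_X] at this
    linear_combination this
  have vY : vv K Y < 1 := by
    rw [lt_one_iff_le]
    exact (LaurentSeries.valuation_single_zpow K 1).le
  have vw : vv K (w : LaurentSeries K) ≤ 1 := (LaurentSeries.val_le_one_iff_eq_coe K _).mpr ⟨w, rfl⟩
  have vU : vv K U = 1 := by
    rw [hw2, Valuation.map_add_eq_of_lt_left, map_one]
    rw [map_one, map_mul]
    exact mul_lt_one_of_lt_of_le vY vw
  refine ⟨tt K * U, by rw [map_mul, vU, v_tt, mul_one], ?_⟩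
  linear_combination (tt K ^ 2) * hroot2 - (tt K * U - 2 * (tt K * Y + 1)) * hTY

lemma exists_hom (R : K[X]) (n : ℕ) (hn : R.natDegree ≤ n) : ∃ F : K[X],
    ∀ z : LaurentSeries K, aeval z (MM K) = tt K * z → aeval z F = z ^ n * emb R := by
  refine ⟨∑ i ∈ Finset.range (n + 1), C (R.coeff i) * MM K ^ i * X ^ (n - i), fun z hz => ?_⟩
  rw [show emb R = aeval (tt K) R from rfl, aeval_eq_sum_range' (Nat.lt_succ_of_le hn), map_sum,
    Finset.mul_sum]
  refine Finset.sum_congr rfl fun i hi => ?_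
  obtain ⟨j, rfl⟩ := Nat.exists_eq_add_of_le (Nat.lt_succ_iff.mp (Finset.mem_range.mp hi))
  rw [map_mul, map_mul, map_pow, map_pow, aeval_C, aeval_X, hz, Algebra.smul_def,
    Nat.add_sub_cancel_left]
  ring

variable [Fintype K]

lemma v_two (h2 : (2 : K) ≠ 0) : vv K (2 : LaurentSeries K) = 1 := by
  rw [← map_ofNat (algebraMap K (LaurentSeries K)) 2]
  exact Valuation.IsTrivialOn.eq_one _ h2

/-- The data of the root and its conjugate. -/
structure RootPair (K : Type*) [Field K] where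
  x : LaurentSeries K
  y : LaurentSeries K
  vx : vv K x = exp 1
  vy : vv K y = exp (-1)
  hx : aeval x (MM K) = tt K * x
  hy : aeval y (MM K) = tt K * y
  prod : x * y = -2
  sum : x + y = tt K - 1

lemma exists_rootPair (h2 : (2 : K) ≠ 0) : Nonempty (RootPair K) := by
  obtain ⟨ξ, h1, h3⟩ := exists_xi (K := K)
  have hne : ξ ≠ 0 := by
    rintro rfl
    rw [map_zero] at h1
    exact exp_ne_zero h1.symm
  have hp : ξ * (tt K - 1 - ξ) = -2 := by linear_combination -h3
  refine ⟨ξ, tt K - 1 - ξ, h1, ?_, by rw [aeval_MM, h3], ?_, hp, by ring⟩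
  · have := congrArg (vv K) hp
    rw [map_mul, Valuation.map_neg, v_two h2, h1] at this
    rw [exp_neg]
    exact eq_inv_of_mul_eq_one_right this
  · rw [aeval_MM]
    linear_combination h3

lemma RootPair.v_sub (P : RootPair K) : vv K (P.x - P.y) = exp 1 := by
  rw [Valuation.map_sub_eq_of_lt_left, P.vx]
  rw [P.vx, P.vy, exp_lt_exp]; norm_num

lemma RootPair.x_ne (P : RootPair K) : P.x ≠ 0 := by
  intro h
  have := P.vx
  rw [h, map_zero] at this
  exact exp_ne_zero this.symm

lemma RootPair.y_ne (P : RootPair K) : P.y ≠ 0 := by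
  intro h
  have := P.vy
  rw [h, map_zero] at this
  exact exp_ne_zero this.symm

/-- Transfer of an approximation problem to polynomials in the root. -/
lemma RootPair.transfer (P : RootPair K) (S R : K[X]) (k n : ℕ) (hS : S.natDegree ≤ n)
    (hR : R.natDegree ≤ n + k + 1) : ∃ F F' : K[X], MM K ^ k ∣ F - F' ∧
      aeval P.x F = P.x ^ (n + k + 1) * (emb S * (P.x * tt K ^ k) - emb R) ∧
      aeval P.y F = P.y ^ (n + k + 1) * (emb S * (P.y * tt K ^ k) - emb R) ∧
      aeval P.x F' = P.x ^ (n + k + 1) * (emb S * (P.y * tt K ^ k) - emb R) ∧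
      aeval P.y F' = P.y ^ (n + k + 1) * (emb S * (P.x * tt K ^ k) - emb R) := by
  obtain ⟨S1, hS1⟩ := exists_hom S n hS
  obtain ⟨R1, hR1⟩ := exists_hom R (n + k + 1) hR
  refine ⟨S1 * MM K ^ k * X ^ 2 - R1, -2 * S1 * MM K ^ k - R1, ⟨S1 * (X ^ 2 + 2), by ring⟩,
    ?_, ?_, ?_, ?_⟩
  · simp only [map_sub, map_mul, map_pow, aeval_X, hS1 _ P.hx, hR1 _ P.hx, P.hx]
    ring
  · simp only [map_sub, map_mul, map_pow, aeval_X, hS1 _ P.hy, hR1 _ P.hy, P.hy]
    ring
  · simp only [map_sub, map_mul, map_pow, map_neg, map_ofNat, hS1 _ P.hx, hR1 _ P.hx, P.hx]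
    rw [← P.prod]
    ring
  · simp only [map_sub, map_mul, map_pow, map_neg, map_ofNat, hS1 _ P.hy, hR1 _ P.hy, P.hy]
    rw [← P.prod]
    ring

lemma tt_ne : tt K ≠ 0 := by
  intro h
  have := v_tt (K := K)
  rw [h, map_zero] at this
  exact exp_ne_zero this.symm

lemma RootPair.irr (P : RootPair K) (k : ℕ) : Irr (P.x * tt K ^ k) := by
  intro A B hB h
  obtain ⟨F, F', -, h1, h2, -, -⟩ := P.transfer B A k (B.natDegree + A.natDegree) (by omega)
    (by omega)
  rw [h, sub_self, mul_zero] at h1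
  have hF : F = 0 := by
    by_contra hne
    have := v_aeval_gt _ P.vx hne
    rw [h1, map_zero] at this
    exact exp_ne_zero this.symm
  rw [hF, map_zero] at h2
  have h3 := (mul_eq_zero.mp h2.symm).resolve_left (pow_ne_zero _ P.y_ne)
  have h4 : emb B * tt K ^ k * (P.x - P.y) = 0 := by linear_combination h - h3
  have h5 : P.x - P.y ≠ 0 := by
    intro h0
    have := P.v_sub
    rw [h0, map_zero] at this
    exact exp_ne_zero this.symm
  exact mul_ne_zero (mul_ne_zero (emb_ne_zero hB) (pow_ne_zero _ tt_ne)) h5 h4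

lemma RootPair.exists_period (P : RootPair K) (k : ℕ) : ∃ N l, IsPeriod (P.x * tt K ^ k) N l := by
  apply exists_isPeriod (y := P.y * tt K ^ k) (P.irr k) _ ((X - 1) * X ^ k) (-2 * X ^ (2 * k))
  · rw [emb_mul, emb_sub, emb_pow, emb_X, emb_one, ← P.sum]; ring
  · rw [emb_mul, emb_neg, emb_pow, emb_X, emb_two, ← P.prod]; ring
  · rw [← sub_mul, map_mul, map_pow, P.v_sub, v_tt, exp_pow, ← exp_add, ← exp_zero, exp_lt_exp]
    omega

lemma RootPair.no_approx (P : RootPair K) (h2 : (2 : K) ≠ 0) (k d : ℕ) (hk : 1 ≤ k)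
    (hsyz : ∀ g h : K[X], g.natDegree < k → h.natDegree < k →
      MM K ^ k ∣ g - X ^ (2 * d + k + 1) * h → g = 0)
    (S R : K[X]) (hS : vv K (emb S) ≤ exp ((d : ℤ) - 1))
    (hne : emb S * (P.x * tt K ^ k) - emb R ≠ 0) :
    ¬ vv K (emb S * (P.x * tt K ^ k) - emb R) ≤ exp (-(d : ℤ) - 1) := by
  intro hα
  set e := S.natDegree + R.natDegree with he
  obtain ⟨F, F', hd, h1, h2', h3, h4⟩ := P.transfer S R k (d + e) (by omega) (by omega)
  set α := emb S * (P.x * tt K ^ k) - emb R with hαdef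
  set β := emb S * (P.y * tt K ^ k) - emb R with hβdef
  have hβ : vv K β ≤ exp ((d : ℤ) + k) := by
    have : β = α - emb S * tt K ^ k * (P.x - P.y) := by rw [hαdef, hβdef]; ring
    rw [this]
    apply Valuation.map_sub_le
    · exact hα.trans (by rw [exp_le_exp]; omega)
    · rw [map_mul, map_mul, map_pow, P.v_sub, v_tt, exp_pow, mul_assoc, ← exp_add]
      refine (mul_le_mul_left hS _).trans ?_
      rw [← exp_add, exp_le_exp]; omega
  have hF0 : F ≠ 0 := by
    rintro rfl
    rw [map_zero] at h1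
    exact mul_ne_zero (pow_ne_zero _ P.x_ne) hne h1.symm
  have a1 : F.natDegree ≤ e + k := by
    apply natDegree_le_of_v_aeval _ P.vx
    rw [h1, map_mul, map_pow, P.vx, exp_pow]
    refine (mul_le_mul_right hα _).trans ?_
    rw [← exp_add, exp_le_exp]; push_cast; omega
  have a2 : X ^ (e + 1) ∣ F := by
    apply X_pow_dvd_of_v_aeval _ P.vy
    rw [h2', map_mul, map_pow, P.vy, exp_pow]
    refine (mul_le_mul_right hβ _).trans ?_
    rw [← exp_add, exp_le_exp]; push_cast; omega
  have a3 : F'.natDegree ≤ 2 * d + e + 2 * k + 1 := by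
    apply natDegree_le_of_v_aeval _ P.vx
    rw [h3, map_mul, map_pow, P.vx, exp_pow]
    refine (mul_le_mul_right hβ _).trans ?_
    rw [← exp_add, exp_le_exp]; push_cast; omega
  have a4 : X ^ (e + 1 + (2 * d + k + 1)) ∣ F' := by
    apply X_pow_dvd_of_v_aeval _ P.vy
    rw [h4, map_mul, map_pow, P.vy, exp_pow]
    refine (mul_le_mul_right hα _).trans ?_
    rw [← exp_add, exp_le_exp]; push_cast; omega
  obtain ⟨g, rfl⟩ := a2
  obtain ⟨h, rfl⟩ := a4
  have hg0 : g ≠ 0 := right_ne_zero_of_mul hF0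
  apply hg0
  apply hsyz g h
  · rw [natDegree_mul (pow_ne_zero _ X_ne_zero) hg0, natDegree_X_pow] at a1
    omega
  · by_cases hh : h = 0
    · rw [hh, natDegree_zero]; omega
    · rw [natDegree_mul (pow_ne_zero _ X_ne_zero) hh, natDegree_X_pow] at a3
      omega
  · have hc : IsCoprime (MM K ^ k) (X ^ (e + 1)) := (coprime_MM_X h2).pow
    apply hc.dvd_of_dvd_mul_left
    have : X ^ (e + 1) * (g - X ^ (2 * d + k + 1) * h)
      = X ^ (e + 1) * g - X ^ (e + 1 + (2 * d + k + 1)) * h := by ring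
    rw [this]
    exact hd

end Pool.Agent.Lib.MP_3bedcc_nt
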