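import Mathlib
import Pool.Agent.Lib.MP_3bedcc_nt.Main

set_option linter.unusedSectionVars false

namespace Pool.Agent.Lib.MP_3bedcc_nt

open Polynomial WithZero

lemma card_periodic (good : ℕ → Prop) [DecidablePred good] (M γ : ℕ)
    (hper : Function.Periodic good M) (hc : γ ≤ M.count good) (b D : ℕ) :
    D * γ ≤ ((Finset.Ico b (b + M * D)).filter good).card := by
  induction D with
  | zero => simp
  | succ D ih =>
    have h1 := Nat.filter_Ico_card_eq_of_periodic (b + M * D) M good hper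
    have h2 : Finset.Ico b (b + M * (D + 1))
        = Finset.Ico b (b + M * D) ∪ Finset.Ico (b + M * D) (b + M * D + M) := by
      rw [Finset.Ico_union_Ico_eq_Ico (by omega) (by omega)]
      congr 1; ring
    rw [h2, Finset.filter_union, Finset.card_union_of_disjoint
      (Finset.disjoint_filter_filter (Finset.Ico_disjoint_Ico_consecutive _ _ _)), h1]
    nlinarith

variable {K : Type*} [Field K] [Fintype K]

lemma degSum_period {x : LaurentSeries K} {N l : ℕ} (hp : IsPeriod x (N + 1) l) (j : ℕ) :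
    degSum x (N + j * l)
      = degSum x N + j * ∑ i ∈ Finset.range l, (cfQuot x (N + 1 + i)).natDegree := by
  have hper : ∀ j i, cfQuot x (N + j * l + i + 1) = cfQuot x (N + 1 + i) := by
    intro j i
    induction j with
    | zero => congr 1; ring
    | succ j ih =>
      rw [← ih, ← hp.2.2 (N + j * l + i + 1) (by omega)]
      congr 1; ring
  induction j with
  | zero => simp
  | succ j ih =>
    rw [show N + (j + 1) * l = N + j * l + l by ring, add_mul, one_mul, ← add_assoc, ← ih]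
    unfold degSum
    rw [Finset.sum_range_add]
    congr 1
    exact Finset.sum_congr rfl fun i _ => by rw [hper]

lemma period_count {x : LaurentSeries K} (hx : Irr x) {N l : ℕ} (hp : IsPeriod x (N + 1) l)
    (good : ℕ → Prop) [DecidablePred good] (M γ : ℕ)
    (hper : Function.Periodic good M) (hc : γ ≤ M.count good)
    (hgood : ∀ d, good d → ∃ i, degSum x i = d) :
    (∑ i ∈ Finset.range l, (cfQuot x (N + 1 + i)).natDegree) * γ ≤ M * l := by
  set D := ∑ i ∈ Finset.range l, (cfQuot x (N + 1 + i)).natDegree with hD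
  refine (card_periodic good M γ hper hc (degSum x N) D).trans ?_
  have h1 : (Finset.Ico (degSum x N) (degSum x N + M * D)).filter good
      ⊆ (Finset.Ico N (N + M * l)).image (degSum x) := by
    intro d hd
    rw [Finset.mem_filter, Finset.mem_Ico] at hd
    obtain ⟨i, rfl⟩ := hgood d hd.2
    refine Finset.mem_image_of_mem _ (Finset.mem_Ico.mpr ⟨?_, ?_⟩)
    · exact (degSum_strictMono hx).le_iff_le.mp hd.1.1
    · rw [← degSum_period hp M] at hd
      exact (degSum_strictMono hx).lt_iff_lt.mp hd.1.2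
  refine (Finset.card_le_card h1).trans (Finset.card_image_le.trans ?_)
  simp

lemma escape_le {x : LaurentSeries K} (hx : Irr x) {N l : ℕ} (hp : IsPeriod x N l) (n : ℕ)
    (hn : 1 ≤ n) (good : ℕ → Prop) [DecidablePred good] (M γ : ℕ) (hM : 0 < M)
    (hper : Function.Periodic good M) (hc : γ ≤ M.count good)
    (hgood : ∀ d, good d → ∃ i, degSum x i = d) :
    escape x N l n ≤ 1 - (γ : ℝ) / M := by
  obtain ⟨N, rfl⟩ : ∃ N', N = N' + 1 := ⟨N - 1, by have := hp.1; omega⟩
  have h1 := period_count hx hp good M γ hper hc hgood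
  have hdeg : ∀ i, 1 ≤ (cfQuot x (N + 1 + i)).natDegree := fun i => by
    rw [show N + 1 + i = N + i + 1 by ring]; exact one_le_natDegree_cfQuot hx _
  unfold escape
  set D : ℝ := ∑ i ∈ Finset.range l, ((cfQuot x (N + 1 + i)).natDegree : ℝ) with hD
  have hl : (l : ℝ) ≤ D := by
    calc (l : ℝ) = ∑ i ∈ Finset.range l, (1 : ℝ) := by simp
      _ ≤ D := Finset.sum_le_sum fun i _ => by exact_mod_cast hdeg i
  have hl1 : (1 : ℝ) ≤ l := by exact_mod_cast hp.2.1
  have hDpos : 0 < D := by linarith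
  have h2 : D * γ ≤ M * l := by
    rw [hD]; exact_mod_cast h1
  have h3 : ∑ i ∈ Finset.range l, max (((cfQuot x (N + 1 + i)).natDegree : ℝ) - n) 0 ≤ D - l := by
    calc _ ≤ ∑ i ∈ Finset.range l, (((cfQuot x (N + 1 + i)).natDegree : ℝ) - 1) := by
          refine Finset.sum_le_sum fun i _ => max_le ?_ ?_
          · have : (1 : ℝ) ≤ n := by exact_mod_cast hn
            linarith
          · have : (1 : ℝ) ≤ (cfQuot x (N + 1 + i)).natDegree := by exact_mod_cast hdeg i
            linarith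
      _ = D - l := by rw [Finset.sum_sub_distrib]; simp [hD]
  have hMpos : (0 : ℝ) < M := by exact_mod_cast hM
  rw [div_le_iff₀ hDpos]
  refine h3.trans ?_
  have : (γ : ℝ) / M * D ≤ l := by
    rw [div_mul_eq_mul_div, div_le_iff₀ hMpos]; linarith
  linarith

theorem RootPair.escape_le (P : RootPair K) (p r : ℕ) [Fact p.Prime] [CharP K p] (hp5 : 5 ≤ p)
    (h2 : (2 : K) ≠ 0) (h3 : (3 : K) ≠ 0) (k : ℕ) (hk1 : p ^ r ≤ k) (hk2 : k ≤ 2 * p ^ r)
    {N l : ℕ} (hp : IsPeriod (P.x * tt K ^ k) N l) (n : ℕ) (hn : 1 ≤ n) :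
    escape (P.x * tt K ^ k) N l n ≤ 1 - 1 / (2 * p * Fintype.card K) := by
  set Q := p ^ r with hQ
  set M := (Fintype.card K - 1) * p ^ (r + 1) with hM
  have hq : 2 ≤ Fintype.card K := Fintype.one_lt_card
  have hQ1 : 1 ≤ Q := Nat.one_le_pow _ _ (by omega)
  have hM1 : 5 * Q ≤ M := by
    rw [hM, pow_succ, ← hQ]
    have : 1 ≤ Fintype.card K - 1 := by omega
    nlinarith [Nat.mul_le_mul this (Nat.mul_le_mul_left Q hp5)]
  have hM2 : M ≤ p * Fintype.card K * Q := by
    rw [hM, pow_succ, ← hQ]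
    have : Fintype.card K - 1 ≤ Fintype.card K := by omega
    nlinarith [Nat.mul_le_mul_right (Q * p) this]
  let good : ℕ → Prop := fun d => 2 * Q ≤ (2 * d + k + 1) % M ∧ (2 * d + k + 1) % M ≤ 3 * Q
  have hper : Function.Periodic good M := by
    intro d
    have : (2 * (d + M) + k + 1) % M = (2 * d + k + 1) % M := by
      rw [show 2 * (d + M) + k + 1 = 2 * d + k + 1 + M * 2 by ring, Nat.add_mul_mod_self_left]
    simp only [good, this]
  have hc : (Q + 1) / 2 ≤ M.count good := by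
    rw [Nat.count_eq_card_filter_range]
    have : Finset.Ico ((2 * Q - k) / 2) ((2 * Q - k) / 2 + (Q + 1) / 2)
        ⊆ (Finset.range M).filter good := by
      intro d hd
      rw [Finset.mem_Ico] at hd
      rw [Finset.mem_filter, Finset.mem_range]
      have : 2 * d + k + 1 < M := by omega
      simp only [good, Nat.mod_eq_of_lt this]
      omega
    simpa using Finset.card_le_card this
  have hgood : ∀ d, good d → ∃ i, degSum (P.x * tt K ^ k) i = d := by
    intro d hd
    apply exists_degSum_eq (P.irr k) d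
    intro S R hS hne
    exact P.no_approx h2 k d (by omega)
      (fun g h hg hh hdv => syzygy1 p r h2 h3 k _ hk1 hk2 hd.1 hd.2 g h hg hh hdv) S R hS hne
  refine (MP_3bedcc_nt.escape_le (P.irr k) hp n hn good M _ (by omega) hper hc hgood).trans ?_
  have hMpos : (0 : ℝ) < M := by exact_mod_cast (by omega : 0 < M)
  have hpos : (0 : ℝ) < 2 * p * Fintype.card K := by positivity
  have : (1 : ℝ) / (2 * p * Fintype.card K) ≤ (((Q + 1) / 2 : ℕ) : ℝ) / M := by
    rw [div_le_div_iff₀ hpos hMpos]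
    have h5 : Q ≤ 2 * ((Q + 1) / 2) := by omega
    have h6 : 1 * M ≤ (Q + 1) / 2 * (2 * p * Fintype.card K) := by
      nlinarith [Nat.mul_le_mul_left (p * Fintype.card K) h5]
    exact_mod_cast h6
  linarith

lemma card_bound (p : ℕ) (hp : 2 ≤ p) (T : Set ℕ)
    (hT : ∀ r k, p ^ r ≤ k → k ≤ 2 * p ^ r → k ∉ T) (m : ℕ) (hm : 2 ≤ m) :
    ((T ∩ Set.Icc 1 m).ncard : ℝ) ≤ (1 - 1 / (2 * p)) * m := by
  set r := Nat.log p (m / 2) with hr
  have h1 : p ^ r ≤ m / 2 := Nat.pow_log_le_self p (by omega)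
  have h2 : m / 2 < p ^ (r + 1) := Nat.lt_pow_succ_log_self (by omega) _
  have hQ1 : 1 ≤ p ^ r := Nat.one_le_pow _ _ (by omega)
  have h3 : T ∩ Set.Icc 1 m ⊆ ((Finset.Icc 1 m \ Finset.Icc (p ^ r) (2 * p ^ r) : Finset ℕ) : Set ℕ) := by
    rintro k ⟨hk, hk2⟩
    simp only [Finset.coe_sdiff, Finset.coe_Icc, Set.mem_sdiff]
    exact ⟨hk2, fun h => hT r k h.1 h.2 hk⟩
  have h4 := Set.ncard_le_ncard h3 (Finset.finite_toSet _)
  rw [Set.ncard_coe_finset, Finset.card_sdiff_of_subset
    (Finset.Icc_subset_Icc (by omega) (by omega)), Nat.card_Icc, Nat.card_Icc] at h4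
  have h5 : (T ∩ Set.Icc 1 m).ncard + p ^ r ≤ m := by omega
  have h6 : m ≤ 2 * p * p ^ r := by
    rw [pow_succ] at h2; nlinarith [Nat.div_add_mod m 2, Nat.mod_lt m (by norm_num : 2 > 0)]
  have h7 : ((T ∩ Set.Icc 1 m).ncard : ℝ) + (p : ℝ) ^ r ≤ m := by exact_mod_cast h5
  have h8 : (m : ℝ) ≤ 2 * p * (p : ℝ) ^ r := by exact_mod_cast h6
  have hpos : (0 : ℝ) < 2 * p := by positivity
  have : 1 / (2 * p : ℝ) * m ≤ (p : ℝ) ^ r := by
    rw [div_mul_eq_mul_div, div_le_iff₀ hpos]; linarith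
  linarith

end Pool.Agent.Lib.MP_3bedcc_nt
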