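import Mathlib
import Pool.Agent.Lib.MP_3bedcc_nt.Lagrange

set_option linter.unusedSectionVars false

namespace Pool.Agent.Lib.MP_3bedcc_nt

open Polynomial WithZero

variable {K : Type*} [Field K] [Fintype K]

lemma Irr.inv_sub {x : LaurentSeries K} (hx : Irr x) (A : K[X]) : Irr (x - emb A)⁻¹ := by
  intro S B hB h
  have hne := hx.sub_ne A
  have h2 : emb B = emb S * (x - emb A) := by
    rw [← h, mul_assoc, inv_mul_cancel₀ hne, mul_one]
  have hS : S ≠ 0 := by
    rintro rfl
    rw [emb_zero, zero_mul] at h2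
    exact emb_ne_zero hB h2
  apply hx (B + S * A) S hS
  rw [emb_add, emb_mul, h2]
  ring

lemma Irr.conjQuot {x y : LaurentSeries K} (hy : Irr y) (i : ℕ) : Irr (conjQuot x y i) := by
  induction i with
  | zero => exact hy
  | succ i ih => exact ih.inv_sub _

lemma conj_succ_mul {x y : LaurentSeries K} (hy : Irr y) (i : ℕ) :
    (conjQuot x y i - emb (cfQuot x i)) * conjQuot x y (i + 1) = 1 := by
  rw [conjQuot]
  exact mul_inv_cancel₀ ((hy.conjQuot i).sub_ne _)

lemma conj_inv2 {x y : LaurentSeries K} (hx : Irr x) (hy : Irr y) (a0 b c : K[X]) (ha0 : a0 ≠ 0)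
    (hb : emb a0 * (x + y) = emb b) (hc : emb a0 * (x * y) = emb c) (i : ℕ) :
    ∃ a b c : K[X], a ≠ 0 ∧
      vv K (emb a * (compQuot x i - conjQuot x y i)) = vv K (emb a0 * (x - y)) ∧
      emb a * (compQuot x i + conjQuot x y i) = emb b ∧
      emb a * (compQuot x i * conjQuot x y i) = emb c := by
  induction i with
  | zero => exact ⟨a0, b, c, ha0, rfl, hb, hc⟩
  | succ i ih =>
    obtain ⟨a, b, c, ha, h1, h2, h3⟩ := ih
    have e1 := compQuot_succ_mul hx i
    have e2 := conj_succ_mul (x := x) hy i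
    have hne := (hy.conjQuot (x := x) i).sub_ne (cfQuot x i)
    set A := cfQuot x i with hA
    have e3 : emb (c - A * b + A ^ 2 * a)
        = emb a * ((compQuot x i - emb A) * (conjQuot x y i - emb A)) := by
      rw [emb_add, emb_sub, emb_mul, emb_mul, emb_pow, ← h2, ← h3]; ring
    refine ⟨c - A * b + A ^ 2 * a, b - 2 * A * a, a, ?_, ?_, ?_, ?_⟩
    · intro h0
      rw [h0, emb_zero] at e3
      exact mul_ne_zero (emb_ne_zero ha) (mul_ne_zero ((hx.compQuot i).sub_ne A) hne) e3.symm
    · rw [← h1, ← Valuation.map_neg, e3]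
      congr 1
      linear_combination (-emb a * (conjQuot x y i - emb A)) * e1
        + (emb a * (compQuot x i - emb A)) * e2
    · rw [e3, emb_sub, emb_mul, emb_mul, emb_two, ← h2]
      linear_combination (emb a * (conjQuot x y i - emb A)) * e1
        + (emb a * (compQuot x i - emb A)) * e2
    · rw [e3]
      linear_combination (emb a * (conjQuot x y i - emb A) * conjQuot x y (i + 1)) * e1
        + emb a * e2

lemma conj_grow {x y : LaurentSeries K} (hx : Irr x) (hy : Irr y) (i : ℕ)
    (h : vv K (compQuot x i - conjQuot x y i) ≤ 1) :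
    vv K (compQuot x i - conjQuot x y i) * exp 1
      ≤ vv K (compQuot x (i + 1) - conjQuot x y (i + 1)) := by
  have e1 := compQuot_succ_mul hx i
  have e2 := conj_succ_mul (x := x) hy i
  have h0 : vv K (compQuot x i - emb (cfQuot x i)) < 1 := v_sub_polyPart _
  have h1 : vv K (conjQuot x y i - emb (cfQuot x i)) ≤ 1 := by
    have e : conjQuot x y i - emb (cfQuot x i)
        = (compQuot x i - emb (cfQuot x i)) - (compQuot x i - conjQuot x y i) := by ring
    rw [e]
    exact Valuation.map_sub_le _ h0.le h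
  have h2 : 1 ≤ vv K (conjQuot x y (i + 1)) := by
    have h3 := congrArg (vv K) e2
    rw [map_mul, map_one] at h3
    calc (1 : WithZero (Multiplicative ℤ))
        = vv K (conjQuot x y i - emb (cfQuot x i)) * vv K (conjQuot x y (i + 1)) := h3.symm
      _ ≤ 1 * vv K (conjQuot x y (i + 1)) := mul_le_mul_left h1 _
      _ = _ := one_mul _
  have h4 : exp 1 ≤ vv K (compQuot x (i + 1)) := by
    rw [v_compQuot hx, exp_le_exp]
    exact_mod_cast one_le_natDegree_cfQuot hx i
  have e : compQuot x (i + 1) - conjQuot x y (i + 1)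
      = -((compQuot x i - conjQuot x y i) * compQuot x (i + 1) * conjQuot x y (i + 1)) := by
    linear_combination (conjQuot x y (i + 1)) * e1 - (compQuot x (i + 1)) * e2
  rw [e, Valuation.map_neg, map_mul, map_mul]
  exact (mul_le_mul_right h4 _).trans (le_mul_of_one_le_right' h2)

lemma conj_far_step {x y : LaurentSeries K} (hx : Irr x) (i : ℕ)
    (h : 1 < vv K (compQuot x i - conjQuot x y i)) :
    1 < vv K (compQuot x (i + 1) - conjQuot x y (i + 1)) := by
  have h1 := one_lt_v_compQuot hx i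
  rw [Valuation.map_sub_eq_of_lt_left _ ((conj_small i h).trans h1)]
  exact h1

lemma conj_eventually {x y : LaurentSeries K} (hx : Irr x) (hy : Irr y) (hxy : x ≠ y) :
    ∃ i0, ∀ i, i0 ≤ i → 1 < vv K (compQuot x i - conjQuot x y i) := by
  have h0 : ∃ i0, 1 < vv K (compQuot x i0 - conjQuot x y i0) := by
    by_contra hne
    push Not at hne
    have hv : vv K (x - y) ≠ 0 := by
      rw [Valuation.ne_zero_iff]
      exact sub_ne_zero.mpr hxy
    obtain ⟨m, hm⟩ : ∃ m : ℤ, vv K (x - y) = exp m := ⟨log (vv K (x - y)), (exp_log hv).symm⟩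
    have hall : ∀ i : ℕ, exp (m + i) ≤ vv K (compQuot x i - conjQuot x y i) := by
      intro i
      induction i with
      | zero => simpa [compQuot_zero, conjQuot] using hm.ge
      | succ i ih =>
        refine le_trans ?_ (conj_grow hx hy i (hne i))
        rw [Nat.cast_add, Nat.cast_one, ← add_assoc, exp_add]
        exact mul_le_mul_left ih _
    have h1 := (hall ((-m).toNat + 1)).trans (hne _)
    rw [← exp_zero, exp_le_exp] at h1
    omega
  obtain ⟨i0, h0⟩ := h0
  refine ⟨i0, fun i hi => ?_⟩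
  induction i, hi using Nat.le_induction with
  | base => exact h0
  | succ i _ ih => exact conj_far_step hx i ih

/-- Lagrange periodicity for an arbitrary pair of conjugate quadratic irrationals. -/
theorem exists_isPeriod2 {x y : LaurentSeries K} (hx : Irr x) (hy : Irr y) (hxy : x ≠ y)
    (a0 b c : K[X]) (ha0 : a0 ≠ 0) (hb : emb a0 * (x + y) = emb b)
    (hc : emb a0 * (x * y) = emb c) : ∃ N l, IsPeriod x N l := by
  obtain ⟨i0, hi0⟩ := conj_eventually hx hy hxy
  obtain ⟨n, hn⟩ : ∃ n : ℕ, vv K (emb a0 * (x - y)) ≤ exp (n : ℤ) :=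
    ⟨(log (vv K (emb a0 * (x - y)))).toNat, le_exp_of_log_le (Int.self_le_toNat _)⟩
  have hmem : ∀ i : ℕ, compQuot x (i0 + i + 1) ∈ {z : LaurentSeries K | ∃ a b c : K[X],
      a.natDegree ≤ n ∧ b.natDegree ≤ n ∧ c.natDegree ≤ n ∧ a ≠ 0 ∧
      emb a * z ^ 2 - emb b * z + emb c = 0} := by
    intro i
    obtain ⟨a, b, c, ha, h1, h2, h3⟩ := conj_inv2 hx hy a0 b c ha0 hb hc (i0 + i + 1)
    have g1 := one_lt_v_compQuot hx (i0 + i)
    have g2 := conj_small (i0 + i) (hi0 (i0 + i) (by omega))
    rw [map_mul, Valuation.map_sub_eq_of_lt_left _ (g2.trans g1)] at h1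
    refine ⟨a, b, c, ?_, ?_, ?_, ha, ?_⟩
    · apply natDegree_le_of_v_emb
      exact (le_mul_of_one_le_right' g1.le).trans (h1.le.trans hn)
    · apply natDegree_le_of_v_emb
      rw [← h2, map_mul, Valuation.map_add_eq_of_lt_left _ (g2.trans g1), h1]
      exact hn
    · apply natDegree_le_of_v_emb
      rw [← h3, map_mul, map_mul, ← mul_assoc, h1]
      exact (mul_le_of_le_one_right' g2.le).trans hn
    · rw [← h2, ← h3]; ring
  obtain ⟨i, -, j, -, hij, heq⟩ := Set.infinite_univ.exists_lt_map_eq_of_mapsTo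
    (f := fun i : ℕ => compQuot x (i0 + i + 1)) (fun i _ => hmem i) (finite_roots n)
  have hall : ∀ m, compQuot x (i0 + i + 1 + m) = compQuot x (i0 + j + 1 + m) := by
    intro m
    induction m with
    | zero => exact heq
    | succ m ih =>
      rw [← add_assoc, ← add_assoc, compQuot_succ, compQuot_succ (i := i0 + j + 1 + m), ih]
  refine ⟨i0 + i + 1, j - i, by omega, by omega, fun m hm => ?_⟩
  obtain ⟨u, rfl⟩ := Nat.exists_eq_add_of_le hm
  unfold cfQuot
  rw [hall u, show i0 + i + 1 + u + (j - i) = i0 + j + 1 + u by omega]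

end Pool.Agent.Lib.MP_3bedcc_nt
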