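import Mathlib
import Pool.Agent.Lib.MP_3bedcc_nt.Lagrange

set_option linter.unusedSectionVars false

namespace Pool.Agent.Lib.MP_3bedcc_nt

open Polynomial

variable {K : Type*} [Field K]

/-- An identity `C f ^ 2 g = A X ^ (n + 1) + B` with small `A` and `B`. -/
structure Peak (K : Type*) [Field K] where
  e : ℕ
  n : ℕ
  f : K[X]
  g : K[X]
  A : K[X]
  B : K[X]
  C : K[X]
  he : 1 ≤ e
  hn : 2 * e ≤ n
  df : f.natDegree = e
  dg : g.natDegree = e
  dA : A.natDegree + 1 ≤ e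
  dB : B.natDegree = e
  hid : C * f ^ 2 * g = A * X ^ (n + 1) + B
  cgf : IsCoprime g f
  cgC : IsCoprime g C
  cBA : IsCoprime B A
  cBX : IsCoprime B X
  cX : IsCoprime (f * g) X

theorem Peak.syzygy0 (W : Peak K) (p r : ℕ) [Fact p.Prime] [CharP K p] (k s : ℕ)
    (hk1 : p ^ r ≤ k) (hk2 : k ≤ 2 * p ^ r) (hs1 : W.n * p ^ r ≤ s) (hs2 : s ≤ (W.n + 1) * p ^ r)
    (g0 h0 : K[X]) (hg : g0.natDegree < W.e * k) (hh : h0.natDegree < W.e * k)
    (hd : (W.f * W.g) ^ k ∣ g0 - X ^ s * h0) : g0 = 0 := by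
  obtain ⟨e, n, f, g, A, B, C, he, hn, df, dg, dA, dB, hid, cgf, cgC, cBA, cBX, cX⟩ := W
  simp only at *
  set Q := p ^ r with hQ
  obtain ⟨a, rfl⟩ : ∃ a, k = Q + a := ⟨k - Q, by omega⟩
  obtain ⟨b, hb⟩ : ∃ b, 2 * Q = Q + a + b := ⟨2 * Q - (Q + a), by omega⟩
  obtain ⟨c, hc⟩ : ∃ c, (n + 1) * Q = s + c := ⟨(n + 1) * Q - s, by omega⟩
  have hcQ : c ≤ Q := by nlinarith
  have hfr : C ^ Q * f ^ (Q + a + b) * g ^ Q = A ^ Q * X ^ (s + c) + B ^ Q := by
    have h1 := congrArg (fun z => z ^ Q) hid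
    simp only [mul_pow] at h1
    rw [hQ, add_pow_char_pow, ← hQ, mul_pow, ← pow_mul, ← pow_mul, hb, hc] at h1
    exact h1
  have fne : f ≠ 0 := by
    rintro rfl
    rw [natDegree_zero] at df
    omega
  have gne : g ≠ 0 := by
    rintro rfl
    rw [natDegree_zero] at dg
    omega
  have Bne : B ≠ 0 := by
    rintro rfl
    rw [natDegree_zero] at dB
    omega
  obtain ⟨w, hw⟩ := hd
  have e1 : g0 = X ^ s * h0 + (f * g) ^ (Q + a) * w := by linear_combination hw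
  have hcross : (f * g) ^ (Q + a) ∣ (g0 * (X ^ c * A ^ Q) + h0 * B ^ Q) * g ^ a := by
    refine ⟨w * (X ^ c * A ^ Q) * g ^ a + h0 * (f ^ b * C ^ Q), ?_⟩
    have e2 : B ^ Q = C ^ Q * f ^ (Q + a + b) * g ^ Q - A ^ Q * X ^ (s + c) := by
      linear_combination -hfr
    rw [e1, e2, mul_pow]
    ring
  have hzero : (g0 * (X ^ c * A ^ Q) + h0 * B ^ Q) * g ^ a = 0 := by
    by_contra hne
    have h1 := natDegree_le_of_dvd hcross hne
    rw [natDegree_pow, natDegree_mul fne gne, df, dg] at h1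
    have h2 : ((g0 * (X ^ c * A ^ Q) + h0 * B ^ Q) * g ^ a).natDegree
        ≤ (e * (Q + a) - 1 + e * Q) + e * a := by
      refine natDegree_mul_le.trans (add_le_add ?_ ?_)
      · refine (natDegree_add_le _ _).trans (max_le ?_ ?_)
        · refine natDegree_mul_le.trans (add_le_add (by omega) ?_)
          refine natDegree_mul_le.trans ?_
          rw [natDegree_X_pow, natDegree_pow]
          nlinarith [Nat.mul_le_mul_left Q dA]
        · refine natDegree_mul_le.trans (add_le_add (by omega) ?_)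
          rw [natDegree_pow, dB, mul_comm]
      · rw [natDegree_pow, dg, mul_comm]
    have h3 : (Q + a) * (e + e) = e * (Q + a) + (e * Q + e * a) := by ring
    omega
  have hz2 : g0 * (X ^ c * A ^ Q) + h0 * B ^ Q = 0 :=
    (mul_eq_zero.mp hzero).resolve_right (pow_ne_zero _ gne)
  have key : (f ^ (Q + a) * g ^ Q) * (g0 * (f ^ b * C ^ Q))
      = (f ^ (Q + a) * g ^ Q) * (g ^ a * B ^ Q * w) := by
    have e3 : g0 * (C ^ Q * f ^ (Q + a + b) * g ^ Q) = (f * g) ^ (Q + a) * w * B ^ Q := by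
      rw [hfr, ← hw]
      linear_combination (X ^ s) * hz2
    rw [mul_pow] at e3
    linear_combination e3
  have key2 : g0 * (f ^ b * C ^ Q) = g ^ a * B ^ Q * w :=
    mul_left_cancel₀ (mul_ne_zero (pow_ne_zero _ fne) (pow_ne_zero _ gne)) key
  have cB : IsCoprime B (C * f ^ 2 * g) := by
    rw [hid]
    have h1 : IsCoprime B (A * X ^ (n + 1)) := cBA.mul_right cBX.pow_right
    simpa using h1.add_mul_left_right 1
  have cBC : IsCoprime B C := cB.of_mul_right_left.of_mul_right_left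
  have cBf : IsCoprime B f := by
    have h1 := cB.of_mul_right_left.of_mul_right_right
    rw [pow_two] at h1
    exact h1.of_mul_right_left
  have hcop : IsCoprime (g ^ a * B ^ Q) (f ^ b * C ^ Q) :=
    IsCoprime.mul_left (IsCoprime.mul_right cgf.pow cgC.pow) (IsCoprime.mul_right cBf.pow cBC.pow)
  have hdv : g ^ a * B ^ Q ∣ g0 := hcop.dvd_of_dvd_mul_right ⟨w, key2⟩
  by_contra hne
  have h1 := natDegree_le_of_dvd hdv hne
  rw [natDegree_mul (pow_ne_zero _ gne) (pow_ne_zero _ Bne), natDegree_pow, natDegree_pow, dg,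
    dB] at h1
  have h3 : e * (Q + a) = a * e + Q * e := by ring
  omega

lemma exists_order [Fintype K] (M : K[X]) (hM : M ≠ 0) (hc : IsCoprime M X) :
    ∃ N, 0 < N ∧ M ∣ X ^ N - 1 := by
  have hmem : ∀ i : ℕ, (X ^ i : K[X]) % M ∈ {F : K[X] | F.natDegree ≤ M.natDegree} := by
    intro i
    exact natDegree_le_natDegree (degree_mod_lt _ hM).le
  obtain ⟨i, -, j, -, hij, heq⟩ := Set.infinite_univ.exists_lt_map_eq_of_mapsTo
    (f := fun i : ℕ => (X ^ i : K[X]) % M) (fun i _ => hmem i) (finite_natDegree_le _)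
  refine ⟨j - i, by omega, ?_⟩
  obtain ⟨u, rfl⟩ := Nat.exists_eq_add_of_le hij.le
  rw [Nat.add_sub_cancel_left]
  have h1 : IsCoprime M (X ^ i) := hc.pow_right
  apply h1.dvd_of_dvd_mul_left
  refine ⟨X ^ (i + u) / M - X ^ i / M, ?_⟩
  have a1 := EuclideanDomain.div_add_mod (X ^ i : K[X]) M
  have a2 := EuclideanDomain.div_add_mod (X ^ (i + u) : K[X]) M
  rw [← heq] at a2
  linear_combination a1 - a2

theorem Peak.syzygy1 (W : Peak K) (p r : ℕ) [Fact p.Prime] [CharP K p] (N : ℕ)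
    (hN : W.f * W.g ∣ X ^ N - 1) (k s : ℕ) (hk1 : p ^ r ≤ k) (hk2 : k ≤ 2 * p ^ r)
    (hs1 : W.n * p ^ r ≤ s % (N * p ^ (r + 1))) (hs2 : s % (N * p ^ (r + 1)) ≤ (W.n + 1) * p ^ r)
    (g0 h0 : K[X]) (hg : g0.natDegree < W.e * k) (hh : h0.natDegree < W.e * k)
    (hd : (W.f * W.g) ^ k ∣ g0 - X ^ s * h0) : g0 = 0 := by
  set L := N * p ^ (r + 1) with hL
  refine W.syzygy0 p r k (s % L) hk1 hk2 hs1 hs2 g0 h0 hg hh ?_
  have hp2 : 2 ≤ p := (Fact.out : p.Prime).two_le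
  have hk3 : k ≤ p ^ (r + 1) := by
    rw [pow_succ]; nlinarith [Nat.zero_le (p ^ r)]
  have h0' : (W.f * W.g) ^ (p ^ (r + 1)) ∣ X ^ L - 1 := by
    have := pow_dvd_pow_of_dvd hN (p ^ (r + 1))
    rwa [sub_pow_char_pow, ← pow_mul, one_pow] at this
  have h1 : (W.f * W.g) ^ k ∣ (X ^ L) ^ (s / L) - 1 :=
    ((pow_dvd_pow _ hk3).trans h0').trans (sub_one_dvd_pow_sub_one _ _)
  have h4 : g0 - X ^ (s % L) * h0
      = (g0 - X ^ s * h0) + ((X ^ L) ^ (s / L) - 1) * (X ^ (s % L) * h0) := by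
    have : (X : K[X]) ^ s = (X ^ L) ^ (s / L) * X ^ (s % L) := by
      rw [← pow_mul, ← pow_add, Nat.div_add_mod]
    rw [this]; ring
  rw [h4]
  exact dvd_add hd (h1.mul_right _)

end Pool.Agent.Lib.MP_3bedcc_nt
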