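import Mathlib
import Pool.Agent.Lib.MP_3bedcc_nt.Count
import Pool.Agent.Lib.MP_3bedcc_nt.GenSyz
import Pool.Agent.Lib.MP_3bedcc_nt.GenLag

set_option linter.unusedSectionVars false

namespace Pool.Agent.Lib.MP_3bedcc_nt

open Polynomial WithZero

variable {K : Type*} [Field K]

lemma emb_C (c : K) : emb (C c : K[X]) = algebraMap K (LaurentSeries K) c := by
  simp [emb]

/-- A root of `z ^ 2 - (t + u) z + w` of degree one. -/
lemma exists_xi2 (u w : K) : ∃ ξ : LaurentSeries K, vv K ξ = exp 1 ∧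
    ξ ^ 2 - (tt K + emb (C u)) * ξ + emb (C w) = 0 := by
  set f : (PowerSeries K)[X] :=
    X ^ 2 + (C (-(1 + PowerSeries.C u * PowerSeries.X)) * X
      + C (PowerSeries.C w * PowerSeries.X ^ 2)) with hf
  have hmon : f.Monic := by
    apply monic_X_pow_add
    exact (degree_linear_le).trans_lt (by norm_num)
  obtain ⟨s, hu, hu1⟩ := HenselianRing.is_henselian
    (I := (Ideal.span {PowerSeries.X} : Ideal (PowerSeries K))) f hmon 1
    (by
      rw [Ideal.mem_span_singleton]
      refine ⟨PowerSeries.C w * PowerSeries.X - PowerSeries.C u, ?_⟩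
      simp [hf]; ring)
    (by
      have : eval 1 (derivative f) = 1 + PowerSeries.X * (-PowerSeries.C u) := by
        rw [hf, derivative_add, derivative_add, derivative_C, derivative_C_mul_X, derivative_X_pow]
        simp; ring
      rw [this, map_add, map_one, map_mul,
        Ideal.Quotient.eq_zero_iff_mem.mpr (Ideal.mem_span_singleton_self _), zero_mul, add_zero]
      exact isUnit_one)
  rw [Ideal.mem_span_singleton] at hu1
  obtain ⟨z, hz⟩ := hu1
  have hroot : s ^ 2 + (-(1 + PowerSeries.C u * PowerSeries.X) * s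
      + PowerSeries.C w * PowerSeries.X ^ 2) = 0 := by
    have := hu
    rw [IsRoot.def, hf] at this
    simpa only [eval_add, eval_mul, eval_pow, eval_C, eval_X] using this
  set U : LaurentSeries K := (s : LaurentSeries K) with hU
  set Y : LaurentSeries K := HahnSeries.single (1 : ℤ) (1 : K) with hY
  have hTY : tt K * Y = 1 := by
    rw [hY, HahnSeries.single_mul_single]; simp
  have hC : ∀ c : K, HahnSeries.ofPowerSeries ℤ K (PowerSeries.C c) = emb (C c : K[X]) := by
    intro c
    rw [emb_C, HahnSeries.ofPowerSeries_C, LaurentSeries.algebraMap_apply]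
  have hroot2 : U ^ 2 + (-(1 + emb (C u) * Y) * U + emb (C w) * Y ^ 2) = 0 := by
    have := congrArg (HahnSeries.ofPowerSeries ℤ K) hroot
    simp only [map_add, map_mul, map_pow, map_neg, map_one, map_zero,
      HahnSeries.ofPowerSeries_X, hC] at this
    exact this
  have hw2 : U = 1 + Y * (z : LaurentSeries K) := by
    have := congrArg (HahnSeries.ofPowerSeries ℤ K) hz
    simp only [map_sub, map_one, map_mul, HahnSeries.ofPowerSeries_X] at this
    linear_combination this
  have vY : vv K Y < 1 := by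
    rw [lt_one_iff_le]
    exact (LaurentSeries.valuation_single_zpow K 1).le
  have vw : vv K (z : LaurentSeries K) ≤ 1 := (LaurentSeries.val_le_one_iff_eq_coe K _).mpr ⟨z, rfl⟩
  have vU : vv K U = 1 := by
    rw [hw2, Valuation.map_add_eq_of_lt_left, map_one]
    rw [map_one, map_mul]
    exact mul_lt_one_of_lt_of_le vY vw
  refine ⟨tt K * U, by rw [map_mul, vU, v_tt, mul_one], ?_⟩
  linear_combination (tt K ^ 2) * hroot2
    + (tt K * U * emb (C u) - emb (C w) * (tt K * Y + 1)) * hTY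

/-- The polynomial `X ^ 2 - u X + w`. -/
noncomputable def TT (u w : K) : K[X] := X ^ 2 - C u * X + C w

lemma aeval_TT (u w : K) (z : LaurentSeries K) :
    aeval z (TT u w) = z ^ 2 - emb (C u) * z + emb (C w) := by
  unfold TT
  rw [emb_C, emb_C]
  simp

lemma exists_hom2 (T R : K[X]) (n : ℕ) (hn : R.natDegree ≤ n) : ∃ F : K[X],
    ∀ z : LaurentSeries K, aeval z T = tt K * z → aeval z F = z ^ n * emb R := by
  refine ⟨∑ i ∈ Finset.range (n + 1), C (R.coeff i) * T ^ i * X ^ (n - i), fun z hz => ?_⟩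
  rw [show emb R = aeval (tt K) R from rfl, aeval_eq_sum_range' (Nat.lt_succ_of_le hn), map_sum,
    Finset.mul_sum]
  refine Finset.sum_congr rfl fun i hi => ?_
  obtain ⟨j, rfl⟩ := Nat.exists_eq_add_of_le (Nat.lt_succ_iff.mp (Finset.mem_range.mp hi))
  rw [map_mul, map_mul, map_pow, map_pow, aeval_C, aeval_X, hz, Algebra.smul_def,
    Nat.add_sub_cancel_left]
  ring

variable [Fintype K]

/-- The two roots of `z ^ 2 - (t + u) z + w`. -/
structure Pair (u w : K) where
  x : LaurentSeries K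
  y : LaurentSeries K
  vx : vv K x = exp 1
  vy : vv K y = exp (-1)
  prod : x * y = emb (C w)
  sum : x + y = tt K + emb (C u)

lemma exists_pair (u w : K) (hw : w ≠ 0) : Nonempty (Pair u w) := by
  obtain ⟨ξ, h1, h3⟩ := exists_xi2 u w
  have hp : ξ * (tt K + emb (C u) - ξ) = emb (C w) := by linear_combination -h3
  refine ⟨ξ, tt K + emb (C u) - ξ, h1, ?_, hp, by ring⟩
  have := congrArg (vv K) hp
  rw [map_mul, v_emb (C_ne_zero.mpr hw), natDegree_C, h1, Nat.cast_zero, exp_zero] at this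
  rw [exp_neg]
  exact eq_inv_of_mul_eq_one_right this

variable {u w : K}

lemma Pair.hx (P : Pair u w) : aeval P.x (TT u w) = tt K * P.x := by
  rw [aeval_TT, ← P.prod]
  linear_combination P.x * P.sum

lemma Pair.hy (P : Pair u w) : aeval P.y (TT u w) = tt K * P.y := by
  rw [aeval_TT, ← P.prod]
  linear_combination P.y * P.sum

lemma Pair.v_sub (P : Pair u w) : vv K (P.x - P.y) = exp 1 := by
  rw [Valuation.map_sub_eq_of_lt_left, P.vx]
  rw [P.vx, P.vy, exp_lt_exp]; norm_num

lemma Pair.sub_ne (P : Pair u w) : P.x - P.y ≠ 0 := by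
  intro h0
  have := P.v_sub
  rw [h0, map_zero] at this
  exact exp_ne_zero this.symm

lemma Pair.x_ne (P : Pair u w) : P.x ≠ 0 := by
  intro h
  have := P.vx
  rw [h, map_zero] at this
  exact exp_ne_zero this.symm

lemma Pair.y_ne (P : Pair u w) : P.y ≠ 0 := by
  intro h
  have := P.vy
  rw [h, map_zero] at this
  exact exp_ne_zero this.symm

lemma Pair.transfer (P : Pair u w) (Z M : K[X]) (k : ℕ)
    (hM : ∀ z : LaurentSeries K, aeval z (TT u w) = tt K * z → aeval z M = z ^ k * emb Z)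
    (S R : K[X]) (n : ℕ) (hS : S.natDegree ≤ n)
    (hR : R.natDegree ≤ n + k + 1) : ∃ F F' : K[X], M ∣ F - F' ∧
      aeval P.x F = P.x ^ (n + k + 1) * (emb S * (P.x * emb Z) - emb R) ∧
      aeval P.y F = P.y ^ (n + k + 1) * (emb S * (P.y * emb Z) - emb R) ∧
      aeval P.x F' = P.x ^ (n + k + 1) * (emb S * (P.y * emb Z) - emb R) ∧
      aeval P.y F' = P.y ^ (n + k + 1) * (emb S * (P.x * emb Z) - emb R) := by
  obtain ⟨S1, hS1⟩ := exists_hom2 (TT u w) S n hS
  obtain ⟨R1, hR1⟩ := exists_hom2 (TT u w) R (n + k + 1) hR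
  refine ⟨S1 * M * X ^ 2 - R1, C w * S1 * M - R1, ⟨S1 * (X ^ 2 - C w), by ring⟩,
    ?_, ?_, ?_, ?_⟩
  · simp only [map_sub, map_mul, map_pow, aeval_X, hS1 _ P.hx, hR1 _ P.hx, hM _ P.hx]
    ring
  · simp only [map_sub, map_mul, map_pow, aeval_X, hS1 _ P.hy, hR1 _ P.hy, hM _ P.hy]
    ring
  · simp only [map_sub, map_mul, aeval_C, hS1 _ P.hx, hR1 _ P.hx, hM _ P.hx]
    rw [← emb_C, ← P.prod]
    ring
  · simp only [map_sub, map_mul, aeval_C, hS1 _ P.hy, hR1 _ P.hy, hM _ P.hy]
    rw [← emb_C, ← P.prod]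
    ring

lemma Pair.irr_x (P : Pair u w) : Irr P.x := by
  intro A B hB h
  obtain ⟨F, F', -, h1, h2, -, -⟩ := P.transfer 1 1 0 (fun z _ => by simp [emb_one]) B A
    (B.natDegree + A.natDegree) (by omega) (by omega)
  rw [emb_one, mul_one] at h1 h2
  rw [h, sub_self, mul_zero] at h1
  have hF : F = 0 := by
    by_contra hne
    have := v_aeval_gt _ P.vx hne
    rw [h1, map_zero] at this
    exact exp_ne_zero this.symm
  rw [hF, map_zero] at h2
  have h3 := (mul_eq_zero.mp h2.symm).resolve_left (pow_ne_zero _ P.y_ne)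
  have h4 : emb B * (P.x - P.y) = 0 := by linear_combination h - h3
  exact mul_ne_zero (emb_ne_zero hB) P.sub_ne h4

lemma Irr.affine {x θ : LaurentSeries K} (hx : Irr x) (α β γ : K[X]) (hα : α ≠ 0)
    (h : emb γ * θ = emb α * x + emb β) : Irr θ := by
  intro A B hB h2
  apply hx (A * γ - B * β) (B * α) (mul_ne_zero hB hα)
  rw [emb_sub, emb_mul, emb_mul, emb_mul, ← h2]
  linear_combination (-emb B) * h

lemma Pair.irr_y (P : Pair u w) : Irr P.y := by
  apply P.irr_x.affine (-1) (X + C u) 1 (by simp)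
  rw [emb_neg, emb_one, emb_add, emb_X, ← P.sum]
  ring

lemma Pair.no_approx (P : Pair u w) (Z M : K[X]) (k d : ℕ) (hk : 1 ≤ k) (hZ : Z.natDegree = k)
    (hM : ∀ z : LaurentSeries K, aeval z (TT u w) = tt K * z → aeval z M = z ^ k * emb Z)
    (hMX : IsCoprime M X)
    (hsyz : ∀ g h : K[X], g.natDegree < k → h.natDegree < k →
      M ∣ g - X ^ (2 * d + k + 1) * h → g = 0)
    (S R : K[X]) (hS : vv K (emb S) ≤ exp ((d : ℤ) - 1))
    (hne : emb S * (P.x * emb Z) - emb R ≠ 0) :
    ¬ vv K (emb S * (P.x * emb Z) - emb R) ≤ exp (-(d : ℤ) - 1) := by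
  intro hα
  set e := S.natDegree + R.natDegree with he
  obtain ⟨F, F', hd, h1, h2', h3, h4⟩ := P.transfer Z M k hM S R (d + e) (by omega) (by omega)
  set α := emb S * (P.x * emb Z) - emb R with hαdef
  set β := emb S * (P.y * emb Z) - emb R with hβdef
  have hZ0 : Z ≠ 0 := by
    rintro rfl
    rw [natDegree_zero] at hZ
    omega
  have hβ : vv K β ≤ exp ((d : ℤ) + k) := by
    have : β = α - emb S * emb Z * (P.x - P.y) := by rw [hαdef, hβdef]; ring
    rw [this]
    apply Valuation.map_sub_le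
    · exact hα.trans (by rw [exp_le_exp]; omega)
    · rw [map_mul, map_mul, P.v_sub, v_emb hZ0, hZ, mul_assoc, ← exp_add]
      refine (mul_le_mul_left hS _).trans ?_
      rw [← exp_add, exp_le_exp]; omega
  have hF0 : F ≠ 0 := by
    rintro rfl
    rw [map_zero] at h1
    exact mul_ne_zero (pow_ne_zero _ P.x_ne) hne h1.symm
  have a1 : F.natDegree ≤ e + k := by
    apply natDegree_le_of_v_aeval _ P.vx
    rw [h1, map_mul, map_pow, P.vx, exp_pow]
    refine (mul_le_mul_right hα _).trans ?_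
    rw [← exp_add, exp_le_exp]; push_cast; omega
  have a2 : X ^ (e + 1) ∣ F := by
    apply X_pow_dvd_of_v_aeval _ P.vy
    rw [h2', map_mul, map_pow, P.vy, exp_pow]
    refine (mul_le_mul_right hβ _).trans ?_
    rw [← exp_add, exp_le_exp]; push_cast; omega
  have a3 : F'.natDegree ≤ 2 * d + e + 2 * k + 1 := by
    apply natDegree_le_of_v_aeval _ P.vx
    rw [h3, map_mul, map_pow, P.vx, exp_pow]
    refine (mul_le_mul_right hβ _).trans ?_
    rw [← exp_add, exp_le_exp]; push_cast; omega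
  have a4 : X ^ (e + 1 + (2 * d + k + 1)) ∣ F' := by
    apply X_pow_dvd_of_v_aeval _ P.vy
    rw [h4, map_mul, map_pow, P.vy, exp_pow]
    refine (mul_le_mul_right hα _).trans ?_
    rw [← exp_add, exp_le_exp]; push_cast; omega
  obtain ⟨g, rfl⟩ := a2
  obtain ⟨h, rfl⟩ := a4
  have hg0 : g ≠ 0 := right_ne_zero_of_mul hF0
  apply hg0
  apply hsyz g h
  · rw [natDegree_mul (pow_ne_zero _ X_ne_zero) hg0, natDegree_X_pow] at a1
    omega
  · by_cases hh : h = 0
    · rw [hh, natDegree_zero]; omega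
    · rw [natDegree_mul (pow_ne_zero _ X_ne_zero) hh, natDegree_X_pow] at a3
      omega
  · have hc : IsCoprime M (X ^ (e + 1)) := hMX.pow_right
    apply hc.dvd_of_dvd_mul_left
    have : X ^ (e + 1) * (g - X ^ (2 * d + k + 1) * h)
      = X ^ (e + 1) * g - X ^ (e + 1 + (2 * d + k + 1)) * h := by ring
    rw [this]
    exact hd

end Pool.Agent.Lib.MP_3bedcc_nt
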