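import Mathlib
import Pool.Agent.Lib.MP_3bedcc_nt.GenMain

set_option linter.unusedSectionVars false

namespace Pool.Agent.Lib.MP_3bedcc_nt

open Polynomial WithZero

variable {K : Type*} [Field K] [Fintype K]

/-- If no good approximation exists in a shrunken box at level `d`, then some denominator degree
is within `h` of `d`. -/
lemma exists_degSum_near {x : LaurentSeries K} (hx : Irr x) (d h : ℕ)
    (hd : ∀ S R : K[X], vv K (emb S) ≤ exp ((d : ℤ) - 1 - h) → emb S * x - emb R ≠ 0 →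
      ¬ vv K (emb S * x - emb R) ≤ exp (-(d : ℤ) - 1 - h)) :
    ∃ i, d ≤ degSum x i + h ∧ degSum x i ≤ d + h := by
  have hex : ∃ i, d + h < degSum x (i + 1) := ⟨d + h, by
    have := (degSum_strictMono hx).id_le (d + h + 1)
    simp only [id] at this; omega⟩
  classical
  set i := Nat.find hex with hi
  have h1 : d + h < degSum x (i + 1) := Nat.find_spec hex
  have h2 : degSum x i ≤ d + h := by
    rcases Nat.eq_zero_or_pos i with h0 | h0
    · rw [h0]
      simp [degSum]
    · have h3 := Nat.find_min hex (m := i - 1) (by omega)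
      rw [show i - 1 + 1 = i by omega] at h3
      omega
  refine ⟨i, ?_, h2⟩
  by_contra hlt
  obtain ⟨S, R, S', R', a1, -, a3, a4⟩ := exists_convergent hx i
  have h5 := congrArg (vv K) a3
  rw [map_mul, Valuation.map_neg, a4, v_compQuot hx] at h5
  have h6 : vv K (emb S * x - emb R) = exp (-(degSum x (i + 1) : ℤ)) := by
    rw [degSum_succ, Nat.cast_add, neg_add, exp_add, ← h5, mul_assoc, ← exp_add]
    simp
  refine hd S R (a1.trans ?_) ?_ ?_
  · rw [exp_le_exp]; omega
  · intro h0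
    rw [h0, map_zero] at h6
    exact exp_ne_zero h6.symm
  · rw [h6, exp_le_exp]; omega

lemma period_count2 {x : LaurentSeries K} (hx : Irr x) {N l : ℕ} (hp : IsPeriod x (N + 1) l)
    (good : ℕ → Prop) [DecidablePred good] (M γ h : ℕ) (hM : 0 < M)
    (hper : Function.Periodic good M) (hc : γ ≤ M.count good)
    (hgood : ∀ d, good d → ∃ i, d ≤ degSum x i + h ∧ degSum x i ≤ d + h) :
    (∑ i ∈ Finset.range l, (cfQuot x (N + 1 + i)).natDegree) * γ
      ≤ (2 * h + 1) ^ 2 * M * l := by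
  set D := ∑ i ∈ Finset.range l, (cfQuot x (N + 1 + i)).natDegree with hD
  refine (card_periodic good M γ hper hc (degSum x N + h) D).trans ?_
  have hadd : ∀ a j, degSum x a + j ≤ degSum x (a + j) := by
    intro a j
    induction j with
    | zero => simp
    | succ j ih =>
      have := degSum_strictMono hx (show a + j < a + (j + 1) by omega)
      omega
  have h1 : (Finset.Ico (degSum x N + h) (degSum x N + h + M * D)).filter good
      ⊆ (Finset.Ico N (N + M * l + 2 * h)).biUnion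
        fun i => Finset.Icc (degSum x i - h) (degSum x i + h) := by
    intro d hd
    rw [Finset.mem_filter, Finset.mem_Ico] at hd
    obtain ⟨i, hi1, hi2⟩ := hgood d hd.2
    rw [Finset.mem_biUnion]
    refine ⟨i, Finset.mem_Ico.mpr ⟨?_, ?_⟩, Finset.mem_Icc.mpr ⟨by omega, hi1⟩⟩
    · apply (degSum_strictMono hx).le_iff_le.mp
      omega
    · apply (degSum_strictMono hx).lt_iff_lt.mp
      have a1 := degSum_period hp M
      have a2 := hadd (N + M * l) (2 * h)
      rw [← hD] at a1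
      omega
  refine (Finset.card_le_card h1).trans
    ((Finset.card_biUnion_le_card_mul _ _ (2 * h + 1) fun i _ => ?_).trans ?_)
  · rw [Nat.card_Icc]; omega
  · rw [Nat.card_Ico, show N + M * l + 2 * h - N = M * l + 2 * h by omega]
    have h2 : 1 ≤ M * l := Nat.mul_pos hM hp.2.1
    have h3 : M * l + 2 * h ≤ (2 * h + 1) * (M * l) := by nlinarith
    calc (M * l + 2 * h) * (2 * h + 1) ≤ ((2 * h + 1) * (M * l)) * (2 * h + 1) :=
          Nat.mul_le_mul_right _ h3
      _ = _ := by ring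

lemma escape_le2 {x : LaurentSeries K} (hx : Irr x) {N l : ℕ} (hp : IsPeriod x N l) (n : ℕ)
    (hn : 1 ≤ n) (good : ℕ → Prop) [DecidablePred good] (M γ h : ℕ) (hM : 0 < M)
    (hper : Function.Periodic good M) (hc : γ ≤ M.count good)
    (hgood : ∀ d, good d → ∃ i, d ≤ degSum x i + h ∧ degSum x i ≤ d + h) :
    escape x N l n ≤ 1 - (γ : ℝ) / ((2 * h + 1) ^ 2 * M) := by
  obtain ⟨N, rfl⟩ : ∃ N', N = N' + 1 := ⟨N - 1, by have := hp.1; omega⟩
  have h1 := period_count2 hx hp good M γ h hM hper hc hgood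
  have hdeg : ∀ i, 1 ≤ (cfQuot x (N + 1 + i)).natDegree := fun i => by
    rw [show N + 1 + i = N + i + 1 by ring]; exact one_le_natDegree_cfQuot hx _
  unfold escape
  set D : ℝ := ∑ i ∈ Finset.range l, ((cfQuot x (N + 1 + i)).natDegree : ℝ) with hD
  have hl : (l : ℝ) ≤ D := by
    calc (l : ℝ) = ∑ i ∈ Finset.range l, (1 : ℝ) := by simp
      _ ≤ D := Finset.sum_le_sum fun i _ => by exact_mod_cast hdeg i
  have hl1 : (1 : ℝ) ≤ l := by exact_mod_cast hp.2.1
  have hDpos : 0 < D := by linarith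
  have h2 : D * γ ≤ (2 * h + 1) ^ 2 * M * l := by
    rw [hD]; exact_mod_cast h1
  have h3 : ∑ i ∈ Finset.range l, max (((cfQuot x (N + 1 + i)).natDegree : ℝ) - n) 0 ≤ D - l := by
    calc _ ≤ ∑ i ∈ Finset.range l, (((cfQuot x (N + 1 + i)).natDegree : ℝ) - 1) := by
          refine Finset.sum_le_sum fun i _ => max_le ?_ ?_
          · have : (1 : ℝ) ≤ n := by exact_mod_cast hn
            linarith
          · have : (1 : ℝ) ≤ (cfQuot x (N + 1 + i)).natDegree := by exact_mod_cast hdeg i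
            linarith
      _ = D - l := by rw [Finset.sum_sub_distrib]; simp [hD]
  have hMpos : (0 : ℝ) < M := by exact_mod_cast hM
  have hpos : (0 : ℝ) < (2 * h + 1) ^ 2 * M := by positivity
  rw [div_le_iff₀ hDpos]
  refine h3.trans ?_
  have : (γ : ℝ) / ((2 * h + 1) ^ 2 * M) * D ≤ l := by
    rw [div_mul_eq_mul_div, div_le_iff₀ hpos]; linarith
  linarith

variable {u w : K}

theorem Pair.escape_le (P : Pair u w) (W : Peak K) (Z : K[X]) (hZ : Z.natDegree = W.e)
    (hM : ∀ z : LaurentSeries K, aeval z (TT u w) = tt K * z →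
      aeval z (W.f * W.g) = z ^ W.e * emb Z)
    (θ : LaurentSeries K) (α β γ : K[X]) (hα : α ≠ 0) (hγ : γ ≠ 0)
    (hθ : emb γ * θ = emb α * P.x + emb β) (p : ℕ) [Fact p.Prime] [CharP K p] :
    ∃ ε : ℝ, 0 < ε ∧ ∀ r k : ℕ, p ^ r ≤ k → k ≤ 2 * p ^ r → ∀ N l : ℕ,
      IsPeriod (θ * emb Z ^ k) N l → ∀ n : ℕ, 1 ≤ n → escape (θ * emb Z ^ k) N l n ≤ 1 - ε := by
  have he := W.he
  have hn2 := W.hn
  have hp2 : 2 ≤ p := (Fact.out : p.Prime).two_le
  have hZ0 : Z ≠ 0 := by
    rintro rfl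
    rw [natDegree_zero] at hZ
    omega
  have fne : W.f ≠ 0 := by
    intro h0
    have := W.df
    rw [h0, natDegree_zero] at this
    omega
  have gne : W.g ≠ 0 := by
    intro h0
    have := W.dg
    rw [h0, natDegree_zero] at this
    omega
  obtain ⟨N0, hN0, hN1⟩ := exists_order (W.f * W.g) (mul_ne_zero fne gne) W.cX
  set N1 := N0 * (W.n + 1) with hN1def
  have hN2 : W.f * W.g ∣ X ^ N1 - 1 := by
    rw [hN1def, pow_mul]
    exact hN1.trans (sub_one_dvd_pow_sub_one _ _)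
  have hN3 : W.n + 1 ≤ N1 := Nat.le_mul_of_pos_left _ hN0
  set h := α.natDegree + γ.natDegree with hh
  have hN1pos : (0 : ℝ) < N1 := by exact_mod_cast (by omega : 0 < N1)
  have hppos : (0 : ℝ) < p := by exact_mod_cast (by omega : 0 < p)
  refine ⟨1 / ((2 * h + 1) ^ 2 * (2 * p * N1)), by positivity, ?_⟩
  intro r k hk1 hk2 N l hper0 n hn
  set Q := p ^ r with hQ
  set M := N1 * p ^ (r + 1) with hMdef
  have hQ1 : 1 ≤ Q := Nat.one_le_pow _ _ (by omega)
  have hM2 : M = p * N1 * Q := by rw [hMdef, pow_succ, ← hQ]; ring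
  have hM1 : 2 * (W.n * Q + Q) ≤ M := by
    rw [hM2]
    calc 2 * (W.n * Q + Q) = 2 * (W.n + 1) * Q := by ring
      _ ≤ p * N1 * Q := Nat.mul_le_mul_right _ (Nat.mul_le_mul hp2 hN3)
  have hek : W.e * k ≤ W.n * Q := by
    calc W.e * k ≤ W.e * (2 * Q) := Nat.mul_le_mul_left _ hk2
      _ = 2 * W.e * Q := by ring
      _ ≤ W.n * Q := Nat.mul_le_mul_right _ hn2
  have hek1 : 1 ≤ W.e * k := Nat.mul_pos he (by omega)
  have hsucc : (W.n + 1) * Q = W.n * Q + Q := by ring
  let good : ℕ → Prop := fun d =>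
    W.n * Q ≤ (2 * d + W.e * k + 1) % M ∧ (2 * d + W.e * k + 1) % M ≤ (W.n + 1) * Q
  have hper : Function.Periodic good M := by
    intro d
    have : (2 * (d + M) + W.e * k + 1) % M = (2 * d + W.e * k + 1) % M := by
      rw [show 2 * (d + M) + W.e * k + 1 = 2 * d + W.e * k + 1 + M * 2 by ring,
        Nat.add_mul_mod_self_left]
    simp only [good, this]
  have hc : (Q + 1) / 2 ≤ M.count good := by
    rw [Nat.count_eq_card_filter_range]
    have : Finset.Ico ((W.n * Q - W.e * k) / 2) ((W.n * Q - W.e * k) / 2 + (Q + 1) / 2)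
        ⊆ (Finset.range M).filter good := by
      intro d hd
      rw [Finset.mem_Ico] at hd
      rw [Finset.mem_filter, Finset.mem_range]
      have : 2 * d + W.e * k + 1 < M := by omega
      simp only [good, Nat.mod_eq_of_lt this]
      omega
    simpa using Finset.card_le_card this
  have hθk : emb γ * (θ * emb Z ^ k) = emb (α * Z ^ k) * P.x + emb (β * Z ^ k) := by
    rw [emb_mul, emb_mul, emb_pow]
    linear_combination (emb Z ^ k) * hθ
  have hirr : Irr (θ * emb Z ^ k) :=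
    P.irr_x.affine _ _ _ (mul_ne_zero hα (pow_ne_zero _ hZ0)) hθk
  have hgood : ∀ d, good d →
      ∃ i, d ≤ degSum (θ * emb Z ^ k) i + h ∧ degSum (θ * emb Z ^ k) i ≤ d + h := by
    intro d hd
    apply exists_degSum_near hirr d h
    intro S R hS hne hle
    have e1 : emb (S * α) * (P.x * emb (Z ^ k)) - emb (R * γ - S * β * Z ^ k)
        = emb γ * (emb S * (θ * emb Z ^ k) - emb R) := by
      rw [emb_sub, emb_mul, emb_mul, emb_mul, emb_mul, emb_pow]
      linear_combination (-emb S * emb Z ^ k) * hθ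
    refine P.no_approx (Z ^ k) ((W.f * W.g) ^ k) (W.e * k) d hek1
      (by rw [natDegree_pow, hZ, mul_comm])
      (fun z hz => by rw [map_pow, hM z hz, mul_pow, ← pow_mul, emb_pow]) W.cX.pow_left
      (fun g0 h0 hg hh0 hdv => W.syzygy1 p r N1 hN2 k _ hk1 hk2 hd.1 hd.2 g0 h0 hg hh0 hdv)
      (S * α) (R * γ - S * β * Z ^ k) ?_ ?_ ?_
    · rw [emb_mul, map_mul]
      refine (mul_le_mul' hS (v_emb_le α)).trans ?_
      rw [← exp_add, exp_le_exp]; omega
    · rw [e1]
      exact mul_ne_zero (emb_ne_zero hγ) hne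
    · rw [e1, map_mul]
      refine (mul_le_mul' (v_emb_le γ) hle).trans ?_
      rw [← exp_add, exp_le_exp]; omega
  refine (escape_le2 hirr hper0 n hn good M _ h (by omega) hper hc hgood).trans ?_
  have hMpos : (0 : ℝ) < M := by exact_mod_cast (by omega : 0 < M)
  have : (1 : ℝ) / ((2 * h + 1) ^ 2 * (2 * p * N1))
      ≤ (((Q + 1) / 2 : ℕ) : ℝ) / ((2 * h + 1) ^ 2 * M) := by
    rw [div_le_div_iff₀ (by positivity) (by positivity)]
    have h5 : Q ≤ 2 * ((Q + 1) / 2) := by omega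
    have h6 : M ≤ (Q + 1) / 2 * (2 * p * N1) := by
      rw [hM2]
      calc p * N1 * Q ≤ p * N1 * (2 * ((Q + 1) / 2)) := Nat.mul_le_mul_left _ h5
        _ = _ := by ring
    have h7 : (M : ℝ) ≤ (((Q + 1) / 2 : ℕ) : ℝ) * (2 * p * N1) := by exact_mod_cast h6
    have h8 : (0 : ℝ) ≤ (2 * h + 1) ^ 2 := by positivity
    nlinarith [mul_le_mul_of_nonneg_left h7 h8]
  linarith

lemma Pair.exists_period (P : Pair u w) (θ : LaurentSeries K) (α β γ : K[X]) (hα : α ≠ 0)
    (hγ : γ ≠ 0) (hθ : emb γ * θ = emb α * P.x + emb β) :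
    IsQuadIrr θ ∧ ∃ N l, IsPeriod θ N l := by
  have hg := emb_ne_zero hγ
  set η := (emb α * P.y + emb β) / emb γ with hη
  have hη2 : emb γ * η = emb α * P.y + emb β := by rw [hη]; field_simp
  have i1 : Irr θ := P.irr_x.affine _ _ _ hα hθ
  have i2 : Irr η := P.irr_y.affine _ _ _ hα hη2
  have hs : emb (γ ^ 2) * (θ + η) = emb (γ * (α * (X + C u) + 2 * β)) := by
    rw [emb_pow, emb_mul, emb_add, emb_mul, emb_mul, emb_add, emb_X, emb_two, ← P.sum]
    linear_combination (emb γ) * hθ + (emb γ) * hη2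
  have hp : emb (γ ^ 2) * (θ * η) = emb (α ^ 2 * C w + α * β * (X + C u) + β ^ 2) := by
    rw [emb_pow, emb_add, emb_add, emb_mul, emb_mul, emb_mul, emb_add, emb_pow, emb_pow, emb_X,
      ← P.sum, ← P.prod]
    linear_combination (emb γ * η) * hθ + (emb α * P.x + emb β) * hη2
  refine ⟨⟨i1, γ ^ 2, -(γ * (α * (X + C u) + 2 * β)),
    α ^ 2 * C w + α * β * (X + C u) + β ^ 2, pow_ne_zero _ hγ, ?_⟩,
    exists_isPeriod2 i1 i2 ?_ _ _ _ (pow_ne_zero _ hγ) hs hp⟩
  · rw [emb_neg, ← hs, ← hp]; ring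
  · intro h0
    have : emb α * (P.x - P.y) = 0 := by
      rw [← h0] at hη2
      linear_combination hη2 - hθ
    exact mul_ne_zero (emb_ne_zero hα) P.sub_ne this

/-- Failure of full generic escape of mass for every irrational element of the quadratic field. -/
theorem Pair.main (P : Pair u w) (W : Peak K) (Z : K[X]) (hZ : Z.natDegree = W.e)
    (hM : ∀ z : LaurentSeries K, aeval z (TT u w) = tt K * z →
      aeval z (W.f * W.g) = z ^ W.e * emb Z)
    (θ : LaurentSeries K) (α β γ : K[X]) (hα : α ≠ 0) (hγ : γ ≠ 0)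
    (hθ : emb γ * θ = emb α * P.x + emb β) :
    ∃ ε c : ℝ, 0 < ε ∧ c < 1 ∧ (∀ k : ℕ, ∃ N l : ℕ, IsPeriod (θ * emb Z ^ k) N l) ∧
      ∀ N l : ℕ → ℕ, (∀ k : ℕ, IsPeriod (θ * emb Z ^ k) (N k) (l k)) →
        ∀ n : ℕ, 1 < n → ∀ m : ℕ, 2 ≤ m →
          (({k : ℕ | 1 - ε < escape (θ * emb Z ^ k) (N k) (l k) n} ∩ Set.Icc 1 m).ncard : ℝ) / m
            ≤ c := by
  set p := ringChar K with hp
  have : CharP K p := ringChar.charP K
  have : Fact p.Prime := ⟨CharP.char_is_prime K p⟩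
  have hp2 : 2 ≤ p := (Fact.out : p.Prime).two_le
  have hZ0 : Z ≠ 0 := by
    rintro rfl
    have := W.he
    rw [natDegree_zero] at hZ
    omega
  obtain ⟨ε, hε, hesc⟩ := P.escape_le W Z hZ hM θ α β γ hα hγ hθ p
  refine ⟨ε, 1 - 1 / (2 * p), hε, ?_, fun k => ?_, ?_⟩
  · have : (0 : ℝ) < p := by exact_mod_cast (by omega : 0 < p)
    have : (0 : ℝ) < 1 / (2 * p) := by positivity
    linarith
  · refine (P.exists_period _ (α * Z ^ k) (β * Z ^ k) γ
      (mul_ne_zero hα (pow_ne_zero _ hZ0)) hγ ?_).2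
    rw [emb_mul, emb_mul, emb_pow]
    linear_combination (emb Z ^ k) * hθ
  · intro N l hper n hn m hm
    have hmpos : (0 : ℝ) < m := by exact_mod_cast (by omega : 0 < m)
    rw [div_le_iff₀ hmpos]
    apply card_bound p hp2 _ _ m hm
    intro r k hk1 hk2 hk
    rw [Set.mem_ofPred_eq] at hk
    exact not_lt_of_ge (hesc r k hk1 hk2 _ _ (hper k) n hn.le) hk

end Pool.Agent.Lib.MP_3bedcc_nt
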