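import Mathlib
import Pool.Agent.Lib.MP_3bedcc_nt.GenCount

set_option linter.unusedSectionVars false

namespace Pool.Agent.Lib.MP_3bedcc_nt

open Polynomial

variable {K : Type*} [Field K]

/-- The identity `C (X - a) ^ 2 (X - b) = X ^ (n + 1) + linear`. -/
lemma exists_peak_of_n (a b : K) (ha : a ≠ 0) (hb : b ≠ 0) (hab : a ≠ b) (n : ℕ) (hn : 2 ≤ n)
    (h0 : (n : K) ≠ 0) (h1 : (n : K) + 1 ≠ 0)
    (hE : b ^ (n + 1) - ((n : K) + 1) * a ^ n * b + n * a ^ (n + 1) = 0) :
    ∃ W : Peak K, W.e = 1 ∧ W.f = X - C a ∧ W.g = X - C b := by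
  set β : K := -(((n : K) + 1) * a ^ n) with hβ
  set δ : K := n * a ^ (n + 1) with hδ
  have hβ0 : β ≠ 0 := neg_ne_zero.mpr (mul_ne_zero h1 (pow_ne_zero _ ha))
  have hδ0 : δ ≠ 0 := mul_ne_zero h0 (pow_ne_zero _ ha)
  set F : K[X] := X ^ (n + 1) + (C β * X + C δ) with hF
  have hev : ∀ z, F.eval z = z ^ (n + 1) + (β * z + δ) := by
    intro z
    simp [hF]
  have hder : ∀ z, (derivative F).eval z = ((n : K) + 1) * z ^ n + β := by
    intro z
    rw [hF, derivative_add, derivative_add, derivative_C, derivative_C_mul_X, derivative_X_pow]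
    simp
  have hF0 : F ≠ 0 := by
    intro h
    have := hev 0
    rw [h] at this
    simp at this
    exact hδ0 this.symm
  have d1 : (X - C a) ^ 2 ∣ F := by
    have : 1 < F.rootMultiplicity a := by
      rw [one_lt_rootMultiplicity_iff_isRoot hF0, IsRoot.def, IsRoot.def, hev, hder, hβ, hδ]
      constructor <;> ring
    exact (pow_dvd_pow _ this).trans (pow_rootMultiplicity_dvd F a)
  have d2 : X - C b ∣ F := by
    rw [dvd_iff_isRoot, IsRoot.def, hev, hβ, hδ]
    linear_combination hE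
  have cab : IsCoprime (X - C b : K[X]) (X - C a) :=
    isCoprime_X_sub_C_of_isUnit_sub (sub_ne_zero.mpr hab.symm).isUnit
  obtain ⟨C0, hC0⟩ := cab.symm.pow_left.mul_dvd d1 d2
  have cX : ∀ z : K, z ≠ 0 → IsCoprime (X - C z : K[X]) X := by
    intro z hz
    have := isCoprime_X_sub_C_of_isUnit_sub (a := z) (b := 0) (by simpa using hz)
    simpa using this
  refine ⟨⟨1, n, X - C a, X - C b, 1, C β * X + C δ, C0, le_rfl, by omega, natDegree_X_sub_C a,
    natDegree_X_sub_C b, by simp, natDegree_linear hβ0, ?_, cab, ?_, isCoprime_one_right, ?_,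
    (cX a ha).mul_left (cX b hb)⟩, rfl, rfl, rfl⟩
  · rw [one_mul, ← hF, hC0]; ring
  · rw [(irreducible_X_sub_C b).coprime_iff_not_dvd]
    rintro ⟨G, hG⟩
    have h2 : (derivative F).eval b = 0 := by
      rw [hC0, hG]
      simp [derivative_mul]
    rw [hder, hβ] at h2
    have h3 : b ^ n = a ^ n := by
      apply mul_left_cancel₀ h1
      linear_combination h2
    have h4 : (n : K) * a ^ n * (a - b) = 0 := by
      rw [pow_succ b, h3] at hE
      linear_combination hE
    exact mul_ne_zero (mul_ne_zero h0 (pow_ne_zero _ ha)) (sub_ne_zero.mpr hab) h4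
  · refine ⟨C δ⁻¹, -(C δ⁻¹ * C β), ?_⟩
    have : (C δ⁻¹ : K[X]) * C δ = 1 := by rw [← C_mul, inv_mul_cancel₀ hδ0, C_1]
    linear_combination this

lemma exists_peak [Fintype K] (a b : K) (ha : a ≠ 0) (hb : b ≠ 0) (hab : a ≠ b) (c m : ℕ)
    (h0 : (c : K) ≠ 0) (h1 : (c : K) + 1 ≠ 0) (hc : 1 + c * (1 - a / b) = (a / b) ^ m) :
    ∃ W : Peak K, W.e = 1 ∧ W.f = X - C a ∧ W.g = X - C b := by
  obtain ⟨j, hj⟩ : ∃ j, Fintype.card K = j + 2 :=
    ⟨Fintype.card K - 2, by have := Fintype.one_lt_card (α := K); omega⟩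
  have hq : ((j : K) + 2) = 0 := by
    have := FiniteField.cast_card_eq_zero K
    rw [hj] at this
    exact_mod_cast this
  have hl : (a / b) ^ (j + 1) = 1 := by
    have := FiniteField.pow_card_sub_one_eq_one (a / b) (div_ne_zero ha hb)
    rwa [hj] at this
  set n := (j + 1) ^ 2 * c + (j + 2) * (m * j) + (j + 1) * (j + 2) with hn
  have hnc : (n : K) = c := by
    rw [hn]
    push_cast
    linear_combination ((j : K) * c + m * j + (j + 1)) * hq
  have hpow : (a / b) ^ n * (a / b) ^ m = 1 := by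
    rw [← pow_add, show n + m = (j + 1) * ((j + 1) * c + m * (j + 1) + (j + 2)) by rw [hn]; ring,
      pow_mul, hl, one_pow]
  apply exists_peak_of_n a b ha hb hab n (le_trans (by nlinarith) (Nat.le_add_left ((j + 1) * (j + 2)) _)) (hnc ▸ h0) (hnc ▸ h1)
  rw [← hc, div_pow] at hpow
  rw [hnc]
  field_simp at hpow
  linear_combination -hpow

lemma hom_linear (a b τ : K) (z : LaurentSeries K)
    (hz : aeval z (TT (a + b - τ) (a * b)) = tt K * z) :
    aeval z ((X - C a) * (X - C b)) = z ^ 1 * emb (X - C τ) := by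
  have : (X - C a) * (X - C b) = TT (a + b - τ) (a * b) - C τ * X := by
    unfold TT
    simp only [map_add, map_sub, map_mul]
    ring
  rw [this, map_sub, hz, map_mul, aeval_C, aeval_X, emb_sub, emb_X, emb_C]
  ring

end Pool.Agent.Lib.MP_3bedcc_nt
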