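import Mathlib
import Pool.Agent.Lib.MP_3bedcc_nt.GenCount

set_option linter.unusedSectionVars false

namespace Pool.Agent.Lib.MP_3bedcc_nt

open Polynomial

variable {K : Type*} [Field K]

/-- The quartic `t ^ 4 + 2 t ^ 3 + 2 t ^ 2 + t + 2`. -/
noncomputable def P4 (K : Type*) [Field K] : K[X] := X ^ 4 + 2 * X ^ 3 + 2 * X ^ 2 + X + 2

lemma natDegree_P4 : (P4 K).natDegree = 4 := by
  unfold P4
  compute_degree!

lemma monic_P4 : (P4 K).Monic := by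
  unfold P4
  monicity!

lemma exists_peak_three (h3 : (3 : K) = 0) : ∃ W : Peak K, W.e = 4 ∧
    W.f = X ^ 4 + X + 2 ∧ W.g = X ^ 4 + 2 * X ^ 3 + 2 := by
  have h : (3 : K[X]) = 0 := by
    rw [show (3 : K[X]) = C 3 from rfl, h3, C_0]
  refine ⟨⟨4, 17, X ^ 4 + X + 2, X ^ 4 + 2 * X ^ 3 + 2, X ^ 3 + 2 * X + 1, X ^ 4 + X ^ 2 + 1,
    X ^ 9 + X ^ 8 + 2 * X ^ 6 + 2 * X ^ 5 + 2 * X ^ 4 + X ^ 3 + 2 * X ^ 2 + X + 2,
    by norm_num, by norm_num, by compute_degree!, by compute_degree!, ?_, by compute_degree!,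
    ?_, ⟨2 * X ^ 3 + 2 * X ^ 2, X ^ 3 + 2 * X + 2, ?_⟩,
    ⟨2 * X ^ 7 + 2 * X ^ 5 + X ^ 3 + 2 * X + 2, X ^ 2 + X, ?_⟩,
    ⟨X ^ 2, 2 * X ^ 3 + X + 1, ?_⟩, ⟨1, 2 * X ^ 3 + 2 * X, ?_⟩,
    ⟨1, 2 * X ^ 7 + X ^ 6 + 2 * X ^ 4 + 2 * X ^ 2 + 1, ?_⟩⟩, rfl, rfl, rfl⟩
  · have : (X ^ 3 + 2 * X + 1 : K[X]).natDegree ≤ 3 := by compute_degree
    omega
  · linear_combination (X ^ 20 + X ^ 18 + 6 * X ^ 17 + 8 * X ^ 16 + 6 * X ^ 15 + 13 * X ^ 14
      + 25 * X ^ 13 + 24 * X ^ 12 + 22 * X ^ 11 + 34 * X ^ 10 + 41 * X ^ 9 + 36 * X ^ 8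
      + 31 * X ^ 7 + 32 * X ^ 6 + 30 * X ^ 5 + 25 * X ^ 4 + 14 * X ^ 3 + 9 * X ^ 2 + 8 * X + 5) * h
  · linear_combination (X ^ 7 + 2 * X ^ 6 + 2 * X ^ 5 + X ^ 4 + 2 * X ^ 3 + 2 * X ^ 2
      + 2 * X + 1) * h
  · linear_combination (X ^ 11 + 2 * X ^ 10 + X ^ 9 + 2 * X ^ 8 + 3 * X ^ 7 + 2 * X ^ 6
      + 3 * X ^ 5 + 3 * X ^ 4 + 3 * X ^ 3 + X ^ 2 + 2 * X + 1) * h
  · linear_combination (X ^ 6 + 2 * X ^ 4 + X ^ 3 + X ^ 2 + X) * h
  · linear_combination (X ^ 4 + X ^ 2) * h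
  · linear_combination (X ^ 8 + X ^ 7 + X ^ 5 + 2 * X ^ 4 + 2 * X ^ 3 + X + 1) * h

lemma hom_three (h3 : (3 : K) = 0) (z : LaurentSeries K)
    (hz : aeval z (TT (0 : K) 1) = tt K * z) :
    aeval z ((X ^ 4 + X + 2) * (X ^ 4 + 2 * X ^ 3 + 2) : K[X]) = z ^ 4 * emb (P4 K) := by
  have h : (3 : K[X]) = 0 := by
    rw [show (3 : K[X]) = C 3 from rfl, h3, C_0]
  have e : ((X ^ 4 + X + 2) * (X ^ 4 + 2 * X ^ 3 + 2) : K[X])
      = TT 0 1 ^ 4 + 2 * TT 0 1 ^ 3 * X + 2 * TT 0 1 ^ 2 * X ^ 2 + TT 0 1 * X ^ 3 + 2 * X ^ 4 := by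
    unfold TT
    rw [C_0, C_1]
    linear_combination (-2 * X ^ 6 - 2 * X ^ 5 - 2 * X ^ 4 - X ^ 3 - 2 * X ^ 2 + 1) * h
  rw [e]
  unfold P4
  simp only [map_add, map_mul, map_pow, aeval_X, map_ofNat, hz, emb_add, emb_mul, emb_pow, emb_X,
    emb_two]
  ring

lemma irreducible_P4 (h3 : (3 : K) = 0) (hK : ∀ x : K, x = 0 ∨ x = 1 ∨ x = -1) :
    Irreducible (P4 K) := by
  have h1 : P4 K ≠ 1 := by
    intro h
    have := natDegree_P4 (K := K)
    rw [h, natDegree_one] at this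
    omega
  rw [monic_P4.irreducible_iff_lt_natDegree_lt h1]
  intro q hq hd hdv
  rw [natDegree_P4, Finset.mem_Ioc] at hd
  have o1 : (1 : K) ≠ 0 := one_ne_zero
  have o2 : (2 : K) ≠ 0 := fun h => o1 (by linear_combination h3 - h)
  rcases (by omega : q.natDegree = 1 ∨ q.natDegree = 2) with h | h
  · rw [hq.eq_X_add_C h] at hdv
    have h2 : X - C (-q.coeff 0) ∣ P4 K := by simpa using hdv
    rw [dvd_iff_isRoot, IsRoot.def] at h2
    unfold P4 at h2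
    simp only [eval_add, eval_mul, eval_pow, eval_X, eval_ofNat] at h2
    rcases hK (-q.coeff 0) with e | e | e <;> rw [e] at h2
    · exact o2 (by linear_combination h2)
    · exact o2 (by linear_combination h2 - 2 * h3)
    · exact o2 (by linear_combination h2)
  · obtain ⟨s, hs⟩ := hdv
    have hsm : s.Monic := hq.of_mul_monic_left (hs ▸ monic_P4)
    have hsd : s.natDegree = 2 := by
      have := natDegree_P4 (K := K)
      rw [hs, hq.natDegree_mul hsm] at this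
      omega
    have form : ∀ r : K[X], r.Monic → r.natDegree = 2 →
        ∃ a b : K, r = X ^ 2 + C a * X + C b := by
      intro r hr hr2
      refine ⟨r.coeff 1, r.coeff 0, ?_⟩
      have := hr.as_sum
      rw [hr2] at this
      rw [this]
      simp [Finset.sum_range_succ]
      ring
    obtain ⟨a, b, rfl⟩ := form q hq h
    obtain ⟨c, d, rfl⟩ := form s hsm hsd
    have e : (X ^ 2 + C a * X + C b) * (X ^ 2 + C c * X + C d)
        = X ^ 4 + C (a + c) * X ^ 3 + C (b + d + a * c) * X ^ 2 + C (a * d + b * c) * X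
          + C (b * d) := by
      simp only [map_add, map_mul]
      ring
    rw [e] at hs
    unfold P4 at hs
    have c3 := congrArg (fun r => r.coeff 3) hs
    have c2 := congrArg (fun r => r.coeff 2) hs
    have c1 := congrArg (fun r => r.coeff 1) hs
    have c0 := congrArg (fun r => r.coeff 0) hs
    simp only [show (2 : K[X]) = C 2 from rfl, coeff_add, coeff_C_mul, coeff_X_pow, coeff_X,
      coeff_C] at c3 c2 c1 c0
    norm_num at c3 c2 c1 c0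
    clear hs e form hq hsm hsd h hd h1
    rcases hK a with ea | ea | ea <;> rcases hK b with eb | eb | eb <;> subst ea eb <;> grind

end Pool.Agent.Lib.MP_3bedcc_nt
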